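import Pool.Agent.H83.VA.T
import Pool.Agent.H44.V0P.TwI

/-!
# A steep place and a flatter last place over slope-one places: the inputs

`XnlDStmt`: no look-ahead for both places. `FarA`: the own jets of all orders of both places over the
labels of `w` and of an early window, given the far jets of the slope-one places and the record at
`w`. `NearA`: the same given the near jets and a record before `w + u`. `TwaStmt`: the tie (`TieWA`)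
from far-dead and the full rate of the last place.
-/

set_option autoImplicit false

namespace Pool.VA83

open Finset Real MvPolynomial
open Pool.Agent.H49.Ent Pool.Agent.H32.Dense
open Pool.STK hiding pr2
open Pool.KA Pool.KSAT Pool.K2S Pool.PB Pool.S6C
open Pool.GEN Pool.CHT Pool.CHX Pool.ISO Pool.LA91 Pool.AVG71 Pool.AVG5 Pool.D2F2 Pool.AVG57
open Pool.RCD Pool.AVG96 Pool.OWN68 Pool.V0F Pool.V0Q Pool.V0T Pool.XR71 Pool.T4C72 Pool.V0S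
open Pool.AJW (CfB)
open Pool.KVA (MI)
open Pool.D2R (WinB)

/-- **(NLD)** The field `nl` of `PEvD` for both places: `q = (u + 500 y) J` near digits of the place
`k` and about `lam0 * u J` near digits of the last place; the far digits at most
`(1 + ξ) u J` and `be / al * (1 + ξ) u J`. -/
def XnlDStmt : Prop := ∀ (k : ℕ) (al be h ξ lam0 T δ : ℝ), 0 < ξ → ξ ≤ 1 → 1 ≤ T → 0 < δ →
  1 ≤ be → be < al → be / al * (1 + ξ) ≤ 1 → 0 < lam0 → lam0 ≤ be / al → ∃ φ₁ : ℝ, 0 < φ₁ ∧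
  ∀ {m : ℕ} {S : PCl m} {c : ℕ → Fin m} {sn sp : ℕ → ℝ → ℝ} {G : Set ℝ}
    {b o w u Λ φ e : ℝ} {lam : ℝ → ℝ}, XBox S c k sn sp G al be h b o w u Λ φ e lam →
    4 * T + 2 * k + 10 ≤ Λ → ∀ {y j : ℝ} {w₁ : ℚ} {K₀ : ℕ} {e₀ ρ₀ : ℝ}, 0 ≤ y → y ≤ φ₁ * u →
    φ ≤ φ₁ * u → 0 ≤ e → e ≤ φ₁ → w ≤ w₁ → (w₁ : ℝ) ≤ w + φ → j ∈ G → w₁ ≤ j →
    j ≤ w + lam0 / (2 * be) * u + φ →
    ∀ (D : ℕ) (E : ℝ), Bas S (fun J F A =>
      ∀ (Hb Hw H₀ H : LnT F → ℕ → MvPolynomial (Option (Fin m)) ℝ)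
        (Hn : LnT F → MvPolynomial (Option (Fin m)) ℝ) (γ : ℕ → ℕ) (TV : F.Ω → Fin 2 → ℝ)
        (Xt : Fin 2 → ℕ) (l₀ : ℕ),
      XEv F c k D ⌊(u + 500 * y) * J⌋₊ sn b w φ E K₀ e₀ ρ₀ A Hb Hw H₀ H Hn γ
        (fun ω => TV ω 0) →
      (sn (k + 1) w - φ) * J ≤ γ (k + 1) → (γ (k + 1) : ℝ) ≤ sn (k + 1) w * J →
      (∀ ω, A ω → TV ω 1 = 2 ^ (γ (k + 1) + l₀) *
        ojet F (c (k + 1)) 0 (Hn (slam F ⌊w * J⌋₊ ω)) ω) →
      Xt 0 = ⌊ξ * u * J⌋₊ → lam0 * u * J ≤ l₀ + 1 →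
      ((l₀ + Xt 1 : ℕ) : ℝ) ≤ (be / al * (1 + ξ) * u + 600 * y) * J →
      ∀ ne Pe' : ℕ → ℝ, (∀ l < k, sn l w + 3 * T * u ≤ ne l ∧
        ne l ≤ sn l w + 3 * T * u + 100 * y ∧ sn l w - w + 3 * T * u ≤ Pe' l ∧
        Pe' l ≤ sn l w - w + (3 * T + k + 2) * u) →
      MI (Pool.Agent.H49.Ent.cond F.p A True) (cR F A j)
        (fun ω (v : Fin 2) => ⌊(2 : ℝ) ^ Xt v * TV ω v⌋)
        (fun ω => ((fun v : Fin 2 => ⌊TV ω v⌋), ((), ((jh F c k ⌊w * J⌋₊ H ne ω,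
          jv F c k ⌊w * J⌋₊ H Pe' ω), (cR F A w₁ ω, F.W ω))))) ≤ δ * u * J)

/-- **Far-dead**: the own jets of the orders `1, …, K` of the places `k` and `k + 1`, over labels of
the windows `w` and `w - τ u`, to `C u` digits behind the natural ones of `w`. -/
def FarA {m : ℕ} (S : PCl m) (c : ℕ → Fin m) (k K : ℕ) (sn : ℕ → ℝ → ℝ) (τ : ℕ)
    (b w u T C φ' δ : ℝ) : Prop :=
  ∃ e₁ : ℝ, 0 < e₁ ∧ ∀ e : ℝ, 0 < e → e ≤ e₁ → ∀ j : ℕ, 1 ≤ j → j ≤ K →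
    F1 S (fun J F => ptr F J) (vg w) (fun _ F => F.W)
      (jetQ m c 0 k b (fun l => sn l b - φ') (fun l j' => sn l w + T * u - (j' : ℝ) * w))
      (qJet m ((range k).image c) (c k) j w (sn k w) (sn k w + C * u - (j : ℝ) * w)) e (δ * u) ∧
    F1 S (fun J F => ptr F J) (vg w) (fun _ F => F.W)
      (jetQ m c 0 k b (fun l => sn l b - φ') (fun l j' => sn l w + T * u - (j' : ℝ) * w))
      (qJet m ((range (k + 1)).image c) (c (k + 1)) j (w - τ * u) (sn (k + 1) (w - τ * u))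
        (sn (k + 1) w + C * u - (j : ℝ) * w)) e (δ * u)

/-- **Near-dead**: the own jets of the orders `1, …, K` of the place `k` over labels of the window
`w`, to `u` digits behind the natural ones, and the own jet of the order `be` (`be` an integer) of the
last place over labels of the window `w - τ u`, to `lam0 u` digits, given the near jets of the
slope-one places and a record `ox` before `w + u`. -/
def NearA {m : ℕ} (S : PCl m) (c : ℕ → Fin m) (k K : ℕ) (sn : ℕ → ℝ → ℝ) (τ : ℕ)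
    (be b w u lam0 φ φ' δ : ℝ) : Prop :=
  ∃ ox : ℝ, w ≤ ox ∧ ox ≤ w + u - φ' ∧ ∃ e₁ : ℝ, 0 < e₁ ∧ ∀ e : ℝ, 0 < e → e ≤ e₁ →
    (∀ j : ℕ, 1 ≤ j → j ≤ K →
      F1 S (fun J F => ptr F J) (vg ox) (fun _ F => F.W)
        (jetQ m c 0 k b (fun l => sn l b - φ') (fun l j' => sn l w + u +
          400 * ((k : ℝ) + 1) * φ - (j' : ℝ) * w))
        (qJet m ((range k).image c) (c k) j w (sn k w) (sn k w + u - (j : ℝ) * w)) e (δ * u)) ∧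
    ∀ j : ℕ, (j : ℝ) = be →
      F1 S (fun J F => ptr F J) (vg ox) (fun _ F => F.W)
        (jetQ m c 0 k b (fun l => sn l b - φ') (fun l j' => sn l w + u +
          400 * ((k : ℝ) + 1) * φ - (j' : ℝ) * w))
        (qJet m ((range (k + 1)).image c) (c (k + 1)) j (w - τ * u) (sn (k + 1) (w - τ * u))
          (sn (k + 1) w + lam0 * u - (j : ℝ) * w)) e (δ * u)

/-- **The tie on one class**: on a part of every large event the labels of both places and their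
codes. -/
def TieA {m : ℕ} (S : PCl m) (c : ℕ → Fin m) (k D D' : ℕ) (sn : ℕ → ℝ → ℝ)
    (al be ξ lam0 b w u T δ φ e₀ ρ₀ : ℝ) (Dr N M : ℕ) (C₀ a Eb ηm : ℝ) (ow η σ : ℕ → ℝ)
    (lv bb : ℕ → ℕ → ℝ) (fb fn : ℕ → ℕ) (nb n : ℕ) : Prop :=
  ∃ cT κT : ℝ, 0 < cT ∧ 0 < κT ∧ Bas S (fun J F A => ∀ {κ : ℝ} {z : ℕ → ℕ → ℕ}
    {g₀ : ℕ → ℕ → ℕ} {Gc : ℕ → PtT F → ℕ → MvPolynomial (Option (Fin m)) ℝ}
    {H : ℕ → LnT F → ℕ → MvPolynomial (Option (Fin m)) ℝ}, κ ≤ κT →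
    WinB F c (k + 1) D Dr N M C₀ a Eb ηm ow η σ lv bb κ z A g₀ Gc H →
    RadT nb n M J u ow fb fn z →
    (∀ l < k, CfB F ⌊b * J⌋₊ 1 (c l) A (fun s => s) (fun s => H (fb 0) s l)) →
    ∃ (B : F.Ω → Prop) (GN : PtT F → ℕ → MvPolynomial (Option (Fin m)) ℝ)
      (HN : LnT F → ℕ → MvPolynomial (Option (Fin m)) ℝ), Sub B A ∧ cT * Pe F.p A ≤ Pe F.p B ∧
      LbT F c k 1 D' w u φ 1 sn B (g₀ (fn 0)) (Gc (fn 0)) GN HN ∧
      LnO F c k sn w φ D' e₀ ρ₀ HN B ∧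
      DjA F c k D' sn b w u T δ (two k (1 + ξ) (be / al * (1 + ξ))) (fb 0) H HN B ∧
      JtA F c k D' sn b w u φ δ (ow (fn n)) (two k 1 lam0) (fb 0) H HN B)

/-- The tie in one window `w`, for all windows of the charts which contain `w - τ u`. `e₀`, `ρ₀`: the
exponents of the label of the last place. -/
def TieWA {m : ℕ} (S : PCl m) (c : ℕ → Fin m) (k D D' : ℕ) (sn : ℕ → ℝ → ℝ) (Gs : Set ℝ) (τ : ℕ)
    (al be ξ lam0 b w u Λ T δ φ φ' : ℝ) (Dr₀ : ℕ) (e₀ ρ₀ : ℝ) : Prop :=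
  ∀ {Dr N' M' : ℕ} {C₀ a Eb' ηm : ℝ} {ow η σ : ℕ → ℝ} {lv bb : ℕ → ℕ → ℝ} {fb fn : ℕ → ℕ}
    {nb n ks : ℕ}, Dr₀ ≤ Dr →
  WnT k 1 sn Gs (2 * be / lam0) b w u Λ φ' N' C₀ Eb' ηm ow lv fb fn nb n ks →
  (∃ t₀ ≤ nb, ow (fb t₀) = w - τ * u) →
  TieA S c k D D' sn al be ξ lam0 b w u T δ φ e₀ ρ₀ Dr N' M' C₀ a Eb' ηm ow η σ lv bb fb fn nb n

/-- **(TWA)** The tie from far-dead and the full rate of the last place. Order of the constants: `D'`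
(degree of the labels of both places), `K` (the orders), `ξ`; `C`, `δ₁` (digits and error of
far-dead); `τ` (the early window), `T` (far digits), `Λ` (the room), `φ` (closeness of the labels, in
units), `e` (the errors, in units). -/
def TwaStmt : Prop :=
  ∀ (k : ℕ) (al be h lam0 : ℝ), 1 ≤ k → 1 ≤ be → be < al → 0 < h → h ≤ 1 → 0 < lam0 →
    lam0 ≤ be / al → (∀ i : ℕ, (i : ℝ) < be → lam0 ≤ be - i) →
  ∀ D : ℕ, 1 ≤ D → ∃ D' K : ℕ, D ≤ D' ∧ ∀ ξ : ℝ, 0 < ξ → ξ ≤ 1 → be / al * (1 + ξ) ≤ 1 →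
  ∀ δ : ℝ, 0 < δ → ∃ C δ₁ : ℝ, 0 < δ₁ ∧ ∀ τ : ℕ, 1 ≤ τ → ∃ T₀ : ℝ, ∀ T : ℝ, T₀ ≤ T →
  ∃ Λ : ℝ, 1 ≤ Λ ∧ ∀ φ : ℝ, 0 < φ → ∃ e : ℝ, 0 < e ∧
  ∀ {m : ℕ} {S : PCl m} {c : ℕ → Fin m} {sn sp : ℕ → ℝ → ℝ} {Gs : Set ℝ}
    {b o w u Λ' φ' e' : ℝ} {lam : ℝ → ℝ}, Λ ≤ Λ' → φ' ≤ e * u → 0 ≤ e' → e' ≤ e →
    XBox S c k sn sp Gs al be h b o w u Λ' φ' e' lam →
    FarA S c k K sn τ b w u T C φ' δ₁ →
    w ≤ sn k w → Pool.LA91.Ful S ((range (k + 1)).image c) w (sn k w) →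
    ∀ e₀ ρ₀ : ℝ, 0 ≤ e₀ →
    (∃ rk E : ℝ, 0 ≤ rk ∧ rk + u ≤ ρ₀ ∧ 0 ≤ E ∧ E + u ≤ e₀ ∧
      AttG S ((range (k + 1)).image c) (c (k + 1)) w (sn (k + 1) w) rk E) →
    sn k w + u ≤ e₀ + sn (k + 1) w → sn k w + u ≤ ρ₀ → e₀ + sn (k + 1) w + u ≤ 1 → ρ₀ < 1 →
    FulB S c k be w u Λ' e' lam D' e₀ ρ₀ (sn (k + 1) w - φ * u) →
    TieWA S c k D D' sn Gs τ al be ξ lam0 b w u Λ' T δ (φ * u) φ' D' e₀ ρ₀

end Pool.VA83
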