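import Pool.Agent.H83.VA.S
import Pool.Agent.H5.V0T.Nlr

/-!
# No look-ahead for places of decreasing slopes

`nlqv`: `NlqvStmt`; as `Pool.V0T.nlqr` (helper5), the slopes of the targets at most the first one.
-/

set_option autoImplicit false

namespace Pool.VA83

open Finset Real MvPolynomial
open Pool.Agent.H49.Ent Pool.Agent.H32.Dense Pool.STK Pool.KA Pool.KSAT Pool.K2S Pool.PB Pool.GEN
open Pool.S6C Pool.RCD Pool.LA91 Pool.AVG96 Pool.OWN68 Pool.V0F Pool.V0Q Pool.V0T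
open Pool.VT83 (NlqI)
open Pool.UNJ (ceI)
open Pool.V0R (LadR)

variable {m : ℕ}

/-- The facts of one target. -/
theorem tgv_facts {S : PCl m} {c : ℕ → Fin m} {k f : ℕ} {sn : ℕ → ℝ → ℝ} {G : Set ℝ} {b o φ : ℝ}
    (L : LadV S c k f sn G b o φ) {u : ℕ} (hu : u ≤ f) {w x D pr M₁ M₂ : ℝ} (hw : w ∈ G)
    (hx : x ∈ G) (hbw : b ≤ w) (hwx : w ≤ x) (hxo : x ≤ o) (hpr : sn (k + u) w - φ ≤ pr)
    (h10 : 0 ≤ M₁) (h12 : M₁ ≤ M₂) (h2x : M₂ + 60 * ((k : ℝ) + f + 2) * φ ≤ sn (k + u) x)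
    (h2w : M₂ + 60 * ((k : ℝ) + f + 2) * φ ≤ sn (k + u) w + (1 - w))
    (h2l : ∀ l < k + u, M₂ + 60 * ((k : ℝ) + f + 2) * φ ≤ sn (k + u) w + (1 - sn l w))
    (hatt : ∃ rk E : ℝ, rk < 1 ∧ 0 ≤ E ∧
      AttG S ((range (k + u)).image c) (c (k + u)) w (sn (k + u) w) rk E ∧ M₂ + E ≤ 1)
    (hDx : x - w ≤ D) (hDM : M₂ - sn (k + u) w + 20 * ((f : ℝ) + 1) * φ ≤ D)
    (hD1 : D + (50 * (k : ℝ) + 60) * φ ≤ 1 - w)
    (hD2 : ∀ l < k, D + (50 * (k : ℝ) + 60) * φ ≤ 1 - sn l w) {η : ℝ} (hη : 0 < η) :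
    ∃ a : ℝ, 0 < a ∧ ∃ e : ℝ, 0 < e ∧ TgF S c k (k + u) w x η pr M₁ M₂ a e := by
  obtain ⟨rk, E, hrk, hE, hatt, hME⟩ := hatt
  have hφ := L.φ0
  have hk0 : (0 : ℝ) ≤ k := Nat.cast_nonneg k
  have hf0 : (0 : ℝ) ≤ f := Nat.cast_nonneg f
  have hkφ : 0 ≤ (k : ℝ) * φ := by positivity
  have hfφ : 0 ≤ (f : ℝ) * φ := by positivity
  have huf : (u : ℝ) ≤ f := by exact_mod_cast hu
  have huφ : (u : ℝ) * φ ≤ f * φ := mul_le_mul_of_nonneg_right huf hφ.le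
  have hC : 60 * ((k : ℝ) + f + 2) * φ = 60 * (k * φ) + 60 * (f * φ) + 120 * φ := by ring
  rw [hC] at h2x h2w h2l
  have hDM' : M₂ - sn (k + u) w + 20 * (f * φ) + 20 * φ ≤ D := by
    have : 20 * ((f : ℝ) + 1) * φ = 20 * (f * φ) + 20 * φ := by ring
    linarith
  have hx1 : x ≤ 1 := hxo.trans L.o1.le
  have hbx : b ≤ x := hbw.trans hwx
  have L1 := L.toLadR.one hw
  have Lu := (L.tk (Nat.zero_le f)).toLadR
  have Lb := L.toLadR.lad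
  have hN20 : 20 * (((k + f : ℕ) : ℝ) + 1) * φ = 20 * (k * φ) + 20 * (f * φ) + 20 * φ := by
    push_cast
    ring
  have c1 := exj L1 (i := k + u) (by omega) (Set.mem_singleton w) (pr := pr) (N := M₁) hrk hE hatt
    hpr h10 (by linarith) (by rw [hN20]; linarith) (fun l hl => by
      have := h2l l hl
      rw [hN20]
      linarith) η hη
  have c2 := exj L1 (i := k + u) (by omega) (Set.mem_singleton w) (pr := pr) (N := M₂) hrk hE hatt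
    hpr (h10.trans h12) hME (by rw [hN20]; linarith) (fun l hl => by
      have := h2l l hl
      rw [hN20]
      linarith) η hη
  have hid : ∀ (J : ℕ) (F : Fam m J), ∃ χ : PtT F → PtT F, ∀ ω, ptr F J ω = χ (ptr F J ω) :=
    fun J F => ⟨fun x => x, fun _ => rfl⟩
  obtain ⟨n, hn⟩ : ∃ n, n = nq k sn w D φ := ⟨_, rfl⟩
  have hst : Nst k sn w φ n := by
    rw [hn]
    exact nq_nst hφ (by linarith) hD1
  have htp : Tp k sn b φ n := by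
    rw [hn]
    exact nq_tp Lb hw hbw (hwx.trans hxo) hD1 hD2
  have hnb : ∀ i < k, sn i x + 20 * φ ≤ n i ∧ n i ≤ 1 := fun i hi => by
    have h1 := nq_bd Lb hw hx hbw hwx hxo hDx hi
    have h2 := hD2 i hi
    rw [hn]
    exact ⟨h1.1, by linarith [h1.2]⟩
  have hnw : ∀ i < k, D ≤ n i - sn i w := fun i hi => by
    rw [hn]
    have h4 : (i : ℝ) + 1 ≤ k := by exact_mod_cast hi
    unfold nq
    nlinarith
  have hn4 : ∀ i < k, sn i x ≤ n i ∧ n i ≤ 1 := fun i hi => by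
    have := hnb i hi
    exact ⟨by linarith [this.1], this.2⟩
  have hU20 : 20 * ((u : ℝ) + 1) * φ ≤ 20 * (f * φ) + 20 * φ := by
    have : 20 * ((u : ℝ) + 1) * φ = 20 * (u * φ) + 20 * φ := by ring
    linarith
  have nN : ∀ N : ℝ, N ≤ M₂ → Few S (fun J F => ptr F J) (vg x) (fun _ F => F.W) (qPos m c k)
      (qJet m ((range (k + u)).image c) (c (k + u)) 0 w pr N) := fun N hN2 =>
    few_pos_of Lb hx hbx hxo hn4 htp (Pool.V0R.t_nupr (L.tk hu).toLadR hid kn_W hw hx hbw hwx hxo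
      le_rfl hx1 (fun i _ => by linarith) hpr hst (fun i hi => (hnb i hi).1)
      (fun v hv h3 h4 => by
        have h5 := L.le (k + u) (Nat.le_add_right k u) (by omega) v hv x hx (hbw.trans h3) h4
          hxo
        linarith) (by linarith) (fun i hi => by linarith [hnw i hi]))
  obtain ⟨k1, hk1, e1, he1, H1⟩ := c1
  obtain ⟨k2, hk2, e2, he2, H2⟩ := c2
  obtain ⟨e3, he3, H3⟩ := (nN M₁ h12).mx L.pos η hη
  obtain ⟨e4, he4, H4⟩ := (nN M₂ le_rfl).mx L.pos η hη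
  obtain ⟨a, ha, l1, l2, lη⟩ : ∃ a : ℝ, 0 < a ∧ a ≤ k1 ∧ a ≤ k2 ∧ a ≤ η / 2 := by
    refine ⟨min (min k1 k2) (η / 2), by positivity, ?_, ?_, ?_⟩ <;>
      simp only [min_le_iff, le_refl, true_or, or_true]
  obtain ⟨e, he, f1, f2, f3, f4⟩ : ∃ e : ℝ, 0 < e ∧ e ≤ e1 ∧ e ≤ e2 ∧ e ≤ e3 ∧ e ≤ e4 := by
    refine ⟨min (min e1 e2) (min e3 e4), by positivity, ?_, ?_, ?_, ?_⟩ <;>
      simp only [min_le_iff, le_refl, true_or, or_true]
  refine ⟨a, ha, e, he, fun K => ?_⟩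
  refine Bas.mono 0 (((H1 K).and (H2 K)).and ((H3 K).and (H4 K))) ?_
  rintro J - F A ⟨⟨H1, H2⟩, H3, H4⟩ h1 h2 q1 q2
  refine ⟨fun V z hz => ?_, fun V z hz => ?_⟩
  · have a1 := H1 V z (hz.le' l1) h1 ((qJet m _ _ _ _ _ _).mono le_rfl f1 q1)
    have a2 := H2 V z (hz.le' l2) h2 ((qJet m _ _ _ _ _ _).mono le_rfl f2 q2)
    exact ⟨a1.2, a2.1, a2.2⟩
  · exact ⟨H3 V z (hz.le' lη) (fun ω => fun l : Fin k => F.X J ω (c l)) h1 (fun ω _ => rfl)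
      ((qJet m _ _ _ _ _ _).mono le_rfl f3 q1),
      H4 V z (hz.le' lη) (fun ω => fun l : Fin k => F.X J ω (c l)) h2 (fun ω _ => rfl)
      ((qJet m _ _ _ _ _ _).mono le_rfl f4 q2)⟩

set_option maxHeartbeats 8000000 in
/-- **(NLQR)** -/
theorem nlqv : NlqvStmt := by
  intro k f
  have hk0 : (0 : ℝ) ≤ k := Nat.cast_nonneg k
  have hf0 : (0 : ℝ) ≤ f := Nat.cast_nonneg f
  refine ⟨60 * ((k : ℝ) + f + 2), by linarith, ?_⟩
  intro m S c sn G b o φ L hI w w₁ vq j x₄ Λ₁ E₁ κn pr M₁ M₂ hw hj hx hbw hww hwj hjq hq1 hjx hxo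
    hx1 _ hpr hM hΛ hMf hMl hx4l _ hatt hnl hκn κ hκ
  obtain ⟨rk, hrk, hE, hatt, hME⟩ := hatt
  have hφ := L.φ0
  have hkφ : 0 ≤ (k : ℝ) * φ := by positivity
  have hfφ : 0 ≤ (f : ℝ) * φ := by positivity
  have hl2 : 0 < Real.log 2 := Real.log_pos one_lt_two
  have hl2' : Real.log 2 ≤ 7 / 10 := by
    have := Real.log_two_lt_d9
    linarith
  have hwx' : w ≤ x₄ := hww.trans (hwj.trans hjx)
  have hx11 : x₄ ≤ 1 := hxo.trans L.o1.le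
  have hbx : b ≤ x₄ := hbw.trans hwx'
  have hw1 : w ≤ 1 := hwx'.trans hx11
  have Lb := L.toLadR.lad
  have hC : 60 * ((k : ℝ) + f + 2) * φ = 60 * (k * φ) + 60 * (f * φ) + 120 * φ := by ring
  obtain ⟨η, hη⟩ : ∃ η : ℝ, η = φ / (100 * ((f : ℝ) + 1)) := ⟨_, rfl⟩
  have hη0 : 0 < η := by rw [hη]; positivity
  have hηφ : 100 * (((f : ℝ) + 1) * η) = φ := by
    rw [hη]
    field_simp
  -- the digits of the positions
  obtain ⟨D, hDx, hDM, hDub⟩ := fam_sup (fun u => M₂ u - sn (k + u) w + 20 * ((f : ℝ) + 1) * φ)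
    (x₄ - w) (f + 1)
  have hF : 20 * ((f : ℝ) + 1) * φ = 20 * (f * φ) + 20 * φ := by ring
  have hD1 : D + (50 * (k : ℝ) + 60) * φ ≤ 1 - w := by
    have : D ≤ 1 - w - (50 * (k : ℝ) + 60) * φ := by
      refine hDub _ (by linarith) fun u hu => ?_
      have := (hM u (by omega)).2.2.2
      linarith
    linarith
  have hD2 : ∀ l < k, D + (50 * (k : ℝ) + 60) * φ ≤ 1 - sn l w := fun l hl => by
    have h1 := abs_le.1 (Lb.flat hl hw hx hbw (hwx'.trans hxo) hbx hxo)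
    have : D ≤ 1 - sn l w - (50 * (k : ℝ) + 60) * φ := by
      refine hDub _ ?_ fun u hu => ?_
      · linarith [hx4l l hl]
      · have := hMl u (by omega) l (by omega)
        linarith
    linarith
  obtain ⟨u₁, rd, hrd, hch⟩ := L.ch.ch w hw
  have hA : ∀ u ≤ f, ∃ rk E : ℝ, rk < 1 ∧ 0 ≤ E ∧
      AttG S ((range (k + u)).image c) (c (k + u)) w (sn (k + u) w) rk E ∧ M₂ u + E ≤ 1 := by
    intro u hu
    rcases Nat.lt_or_eq_of_le hu with h | rfl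
    · refine ⟨rd (k + u), 0, hch.r1 (k + u) (Nat.zero_le _) (by omega), le_rfl,
        (hch.att (k + u) (Nat.zero_le _) (by omega)).attG hw1 le_rfl, ?_⟩
      have := (hMf u h).2.2
      linarith
    · exact ⟨rk, E₁, hrk, hE, hatt, hME⟩
  obtain ⟨a₀, ha₀, e₀, he₀, HT⟩ := fam_min (f + 1)
    (P := fun u a e => TgF S c k (k + u) w x₄ η (pr u) (M₁ u) (M₂ u) a e)
    (fun u a a' e e' h _ h1 _ h2 => h.mn h1 h2) fun u hu => by
      obtain ⟨m1, m2, m3, m4⟩ := hM u (by omega)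
      exact tgv_facts L (by omega) hw hx hbw hwx' hxo (hpr u (by omega)) m1 m2 m3 m4
        (hMl u (by omega)) (hA u (by omega)) hDx (hDM u hu) hD1 hD2 hη0
  obtain ⟨k9, hk9, H9⟩ := hnl
  obtain ⟨ux, rx, -, hchx⟩ := L.ch.ch x₄ hx
  obtain ⟨uj, rj, -, hchj⟩ := L.ch.ch j hj
  have H10 : ∀ u < f, Bas S (fun J F A => ∀ (V : Type) (z : F.Ω → V),
      Cl2 (ptr F J) (vg x₄ J F) A z →
      ((1 - sn (k + u) x₄) - η) * Real.log 2 * J ≤ CH (Pool.Agent.H49.Ent.cond F.p A True)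
        (fun ω => F.X J ω (c (k + u)))
        (fun ω => ((fun l : Fin (k + u) => F.X J ω (c l)), (z ω, F.W ω)))) := fun u hu =>
    ful_at L.pos (fun ρ hρ => Bas.mono 0 (hchx.ful ρ hρ) fun J _ F A H V φ' ψ h i h1 h2 =>
      H V φ' ψ h i h1 (by omega)) hη0
  have H11 : ∀ u < f, Bas S (fun J F A => ∀ (V : Type) (z : F.Ω → V),
      Cl2 (ptr F J) (vg j J F) A z →
      ((1 - sn (k + u) j) - η) * Real.log 2 * J ≤ CH (Pool.Agent.H49.Ent.cond F.p A True)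
        (fun ω => F.X J ω (c (k + u)))
        (fun ω => ((fun l : Fin (k + u) => F.X J ω (c l)), (z ω, F.W ω)))) := fun u hu =>
    ful_at L.pos (fun ρ hρ => Bas.mono 0 (hchj.ful ρ hρ) fun J _ F A H V φ' ψ h i h1 h2 =>
      H V φ' ψ h i h1 (by omega)) hη0
  obtain ⟨κ₁, hκ₁, l1, l9, lη⟩ : ∃ κ₁ : ℝ, 0 < κ₁ ∧ κ₁ ≤ a₀ ∧ κ₁ ≤ k9 ∧ κ₁ ≤ η / 2 := by
    refine ⟨min a₀ (min k9 (η / 2)), by positivity, ?_, ?_, ?_⟩ <;>
      simp only [min_le_iff, le_refl, true_or, or_true]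
  obtain ⟨J₁, hJ₁⟩ := exists_nat_gt (1 / η)
  refine ⟨κ₁, hκ₁, e₀, he₀, fun K => ?_⟩
  refine Bas.mono J₁ (((Bas.all (f + 1) fun u hu => HT u hu K).and H9).and
    (((Bas.all f H10).and (Bas.all f H11)).and (pos_bas L.pos))) ?_
  rintro J hJ F A ⟨⟨HT, H9⟩, ⟨H10, H11⟩, hA'⟩ V₁ zw V₂ Rj hzw hRj v₁ v₂ hv₁ hv₂
  have hcl := isLaw_cond F.isLaw hA'
  have h0 := hcl.nonneg
  have hJ0 : (0 : ℝ) ≤ J := Nat.cast_nonneg J
  have hηJ : 1 ≤ η * J := by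
    have h1 : 1 / η < J := hJ₁.trans_le (by exact_mod_cast hJ)
    rw [div_lt_iff₀ hη0] at h1
    linarith
  have hkJ : κ₁ * J ≤ η / 2 * J := mul_le_mul_of_nonneg_right lη hJ0
  have hj1 : j ≤ 1 := hjx.trans hx11
  have hw₁1 : w₁ ≤ 1 := hwj.trans hj1
  -- the canonical records
  have zc : Mx (fun J F => ptr F J) (vg w) κ₁ F A (cR F A w) := mx_cR hA' w hκ₁.le
  have zq : Mx (fun J F => ptr F J) (vg vq) κ₁ F A (cR F A vq) := mx_cR hA' vq hκ₁.le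
  have z4 : Mx (fun J F => ptr F J) (vg x₄) κ₁ F A (cR F A x₄) := mx_cR hA' x₄ hκ₁.le
  have d1 : CH (Pool.Agent.H49.Ent.cond F.p A True) (cR F A w) zw ≤ κ₁ * J :=
    mx_before hzw hww hw₁1 zc.1
  have d2 : CH (Pool.Agent.H49.Ent.cond F.p A True) (cR F A w) Rj ≤ κ₁ * J :=
    mx_before hRj (hww.trans hwj) hj1 zc.1
  have d3 : CH (Pool.Agent.H49.Ent.cond F.p A True) zw (cR F A x₄) ≤ κ₁ * J :=
    mx_before z4 (hwj.trans hjx) hx11 hzw.1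
  have d4 : CH (Pool.Agent.H49.Ent.cond F.p A True) Rj (cR F A vq) ≤ κ₁ * J :=
    mx_before zq hjq hq1 hRj.1
  -- the heights
  obtain ⟨g1, hg1⟩ : ∃ g1 : F.Ω → ℕ → ℤ, g1 = fun ω u =>
    if hu : u < f + 1 then v₁ ω ⟨u, hu⟩ else 0 := ⟨_, rfl⟩
  obtain ⟨g2, hg2⟩ : ∃ g2 : F.Ω → ℕ → ℤ, g2 = fun ω u =>
    if hu : u < f + 1 then v₂ ω ⟨u, hu⟩ else 0 := ⟨_, rfl⟩
  have qq1 : ∀ u, ∀ hu : u < f + 1, (fun ω => g1 ω u) = fun ω => v₁ ω ⟨u, hu⟩ := fun u hu => by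
    funext ω
    rw [hg1]
    exact dif_pos hu
  have qq2 : ∀ u, ∀ hu : u < f + 1, (fun ω => g2 ω u) = fun ω => v₂ ω ⟨u, hu⟩ := fun u hu => by
    funext ω
    rw [hg2]
    exact dif_pos hu
  have q1 : ∀ u < f + 1, (qJet m ((range (k + u)).image c) (c (k + u)) 0 w (pr u) (M₁ u)).P K e₀
      J F A (fun ω => g1 ω u) := fun u hu => by
    rw [qq1 u hu]
    exact hv₁ ⟨u, hu⟩
  have q2 : ∀ u < f + 1, (qJet m ((range (k + u)).image c) (c (k + u)) 0 w (pr u) (M₂ u)).P K e₀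
      J F A (fun ω => g2 ω u) := fun u hu => by
    rw [qq2 u hu]
    exact hv₂ ⟨u, hu⟩
  have T1 := fun u hu => (HT u hu (fun ω => g1 ω u) (fun ω => g2 ω u) (q1 u hu) (q2 u hu)).1 _
    (cR F A w) (zc.le' l1)
  have T2 := fun u hu => (HT u hu (fun ω => g1 ω u) (fun ω => g2 ω u) (q1 u hu) (q2 u hu)).2 _
    (cR F A x₄) (z4.le' l1)
  have a9 := H9 V₁ zw _ (cR F A vq) (hzw.le' l9) (zq.le' l9)
  have hf1 : f < f + 1 := Nat.lt_succ_self f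
  obtain ⟨mf0, mf1, mf2, mf3⟩ := hM f le_rfl
  -- the digits of the last place
  have hCφ0 : 0 ≤ 60 * ((k : ℝ) + f + 2) * φ := by rw [hC]; linarith
  have hmore : CH (Pool.Agent.H49.Ent.cond F.p A True) (fun ω => F.X ⌊Λ₁ * J⌋₊ ω (c (k + f)))
      (fun ω => (F.X ⌊M₁ f * J⌋₊ ω (c (k + f)), (g1 ω f,
        ((fun l : Fin (k + f) => F.X J ω (c l)), (zw ω, F.W ω))))) ≤
      60 * ((k : ℝ) + f + 2) * φ * J * (7 / 10) + η * J := by
    have hC0 : 0 ≤ 60 * ((k : ℝ) + f + 2) * φ * J := mul_nonneg hCφ0 hJ0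
    rcases le_total ⌊Λ₁ * (J : ℝ)⌋₊ ⌊M₁ f * (J : ℝ)⌋₊ with h | h
    · rw [CH_eq_zero h0 fun ω ω' _ _ hh => X_det F (c (k + f)) h (Prod.ext_iff.mp hh).1]
      linarith
    · have h1 := X_more hcl h (c (k + f)) (fun ω => (g1 ω f,
        ((fun l : Fin (k + f) => F.X J ω (c l)), (zw ω, F.W ω))))
      refine h1.trans ?_
      have g1 : (⌊M₁ f * (J : ℝ)⌋₊ : ℝ) ≤ ⌊Λ₁ * (J : ℝ)⌋₊ := by exact_mod_cast h
      have g2 : M₁ f * (J : ℝ) ≤ (⌊M₁ f * (J : ℝ)⌋₊ : ℝ) + 1 := (Nat.lt_floor_add_one _).le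
      have g3 : (⌊Λ₁ * (J : ℝ)⌋₊ : ℝ) ≤ (M₁ f + 60 * ((k : ℝ) + f + 2) * φ) * J := by
        refine (Nat.cast_le.2 (Nat.floor_le_floor (mul_le_mul_of_nonneg_right hΛ hJ0))).trans ?_
        exact Nat.floor_le (mul_nonneg (add_nonneg mf0 hCφ0) hJ0)
      have g4 : ((⌊Λ₁ * (J : ℝ)⌋₊ : ℝ) - ⌊M₁ f * (J : ℝ)⌋₊) * Real.log 2 ≤
          ((⌊Λ₁ * (J : ℝ)⌋₊ : ℝ) - ⌊M₁ f * (J : ℝ)⌋₊) * (7 / 10) :=
        mul_le_mul_of_nonneg_left hl2' (by linarith)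
      nlinarith
  have hnl := nl_asm h0 (N1 := fun ω => g1 ω f) (N2 := fun ω => g2 ω f)
    (XJ := fun ω => fun l : Fin (k + f) => F.X J ω (c l))
    (C := fun ω => ceI ((range (k + f)).image c) (fun _ => J) (F.x ω)) (zw := zw)
    (zc := cR F A w) (zv := cR F A vq) (Rj := Rj) (Y := F.W)
    (Xo := fun ω => F.X ⌊M₂ f * J⌋₊ ω (c (k + f))) (Xv := fun ω => F.X ⌊Λ₁ * J⌋₊ ω (c (k + f)))
    (Xn := fun ω => F.X ⌊M₁ f * J⌋₊ ω (c (k + f))) (a := κ₁ * J) (e := η * J)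
    (d := 60 * ((k : ℝ) + f + 2) * φ * J * (7 / 10) + η * J) (κn := κn * J)
    (det_cei rfl _) (det_cei' rfl _) d1 d2 d4 (T1 f hf1).2.1 (T1 f hf1).2.2
    (T1 f hf1).1 hmore (by
      rw [hI]
      exact a9)
  -- all targets
  have b3 : ∀ u < f, ⌊M₂ u * (J : ℝ)⌋₊ ≤ J := fun u hu => floor_le (by
    have := (hMf u hu).2.2
    linarith) J
  have key := nlqr_asm h0 (f := f) (h1 := g1) (h2 := g2)
    (X := fun ω u => F.X J ω (c (k + u))) (X1 := fun ω u => F.X ⌊M₁ u * J⌋₊ ω (c (k + u)))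
    (X2 := fun ω u => F.X ⌊M₂ u * J⌋₊ ω (c (k + u)))
    (αs := fun t => Fin (k + t) → ℤ) (βs := fun _ => Fin m → ℤ)
    (XV := fun t ω => fun l : Fin (k + t) => F.X J ω (c l))
    (CV := fun t ω => ceI ((range (k + t)).image c) (fun _ => J) (F.x ω)) (zw := zw)
    (zc := cR F A w) (Rj := Rj) (z4 := cR F A x₄) (Y := F.W) (a := κ₁ * J) (e := η * J)
    (κ := 4 * (κ₁ * J) + 3 * (η * J) + (60 * ((k : ℝ) + f + 2) * φ * J * (7 / 10) + η * J) +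
      κn * J)
    (L1 := fun u => ((⌊M₂ u * (J : ℝ)⌋₊ : ℝ) - ⌊M₁ u * (J : ℝ)⌋₊) * Real.log 2)
    (L2 := fun u => ((J : ℝ) - ⌊M₂ u * (J : ℝ)⌋₊) * Real.log 2)
    (F4 := fun u => ((1 - sn (k + u) x₄) - η) * Real.log 2 * J)
    (Fj := fun u => ((1 - sn (k + u) j) - η) * Real.log 2 * J)
    (mul_nonneg hη0.le hJ0)
    (fun t => det_cei rfl _)
    (fun t ω ω' _ _ hh => by
      have h1 := Prod.ext_iff.mp hh
      refine funext fun l => ?_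
      refine Fin.lastCases h1.1 (fun l => ?_) l
      exact congrFun h1.2 l)
    (fun t ω ω' _ _ hh =>
      Prod.ext (congrFun hh (Fin.last (k + t))) (funext fun l => congrFun hh l.castSucc))
    (fun t ht ω ω' _ _ hh => X_det F (c (k + t)) (b3 t ht) hh) d1 d2 d3
    (fun t ht => (T1 t (by omega)).1) (fun t ht => (T1 t (by omega)).2.1)
    (fun t ht => (T1 t (by omega)).2.2)
    (fun t ht => X_more hcl (Nat.floor_le_floor (mul_le_mul_of_nonneg_right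
      (hM t ht.le).2.1 hJ0)) (c (k + t)) (fun _ : F.Ω => ()))
    (fun t ht => X_more hcl (b3 t ht) (c (k + t)) (fun _ : F.Ω => ()))
    (fun t ht => H10 t ht _ (cR F A x₄) z4.1) (fun t ht => H11 t ht _ Rj hRj.1)
    (fun t ht => (T2 t (by omega)).1) (fun t ht => (T2 t (by omega)).2) hnl
  have e1 : (fun ω => fun u : Fin (f + 1) => g1 ω u) = v₁ := by
    funext ω u
    rw [hg1]
    exact dif_pos u.2
  have e2 : (fun ω => fun u : Fin (f + 1) => g2 ω u) = v₂ := by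
    funext ω u
    rw [hg2]
    exact dif_pos u.2
  have e1' : (fun ω => ((fun u : Fin (f + 1) => g1 ω u),
      ((fun l : Fin (k + 0) => F.X J ω (c l)), (zw ω, F.W ω)))) =
      fun ω => (v₁ ω, ((fun l : Fin k => F.X J ω (c l)), (zw ω, F.W ω))) := by
    rw [← e1]
    rfl
  rw [e2, e1'] at key
  refine key.trans (add_le_add le_rfl ?_)
  -- the numbers
  have t1 : (κn + 8 * ((f : ℝ) + 1) * (60 * ((k : ℝ) + f + 2)) * φ) * J ≤ κ * J :=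
    mul_le_mul_of_nonneg_right hκ hJ0
  have hB : ∀ u ∈ range f, ((⌊M₂ u * (J : ℝ)⌋₊ : ℝ) - ⌊M₁ u * (J : ℝ)⌋₊) * Real.log 2 +
      2 * (((J : ℝ) - ⌊M₂ u * (J : ℝ)⌋₊) * Real.log 2) -
      ((1 - sn (k + u) x₄) - η) * Real.log 2 * J - ((1 - sn (k + u) j) - η) * Real.log 2 * J +
      6 * (κ₁ * J) + 9 * (((f : ℝ) + 1) * (η * J)) ≤
      21 / 10 * (60 * ((k : ℝ) + f + 2) * φ * J) + 6 * (η * J) + 9 * (((f : ℝ) + 1) * (η * J)) := by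
    intro u hu
    rw [mem_range] at hu
    obtain ⟨m1, m2, m3, m4⟩ := hM u hu.le
    obtain ⟨n1, n2, n3⟩ := hMf u hu
    have hM20 : 0 ≤ M₂ u := m1.trans m2
    have b1 : (⌊M₁ u * (J : ℝ)⌋₊ : ℝ) ≤ M₁ u * J := Nat.floor_le (mul_nonneg m1 hJ0)
    have b2 : M₁ u * (J : ℝ) ≤ (⌊M₁ u * (J : ℝ)⌋₊ : ℝ) + 1 := (Nat.lt_floor_add_one _).le
    have b3 : (⌊M₂ u * (J : ℝ)⌋₊ : ℝ) ≤ M₂ u * J := Nat.floor_le (mul_nonneg hM20 hJ0)
    have b4 : M₂ u * (J : ℝ) ≤ (⌊M₂ u * (J : ℝ)⌋₊ : ℝ) + 1 := (Nat.lt_floor_add_one _).le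
    have t2 : sn (k + u) j * J ≤ (M₁ u + 60 * ((k : ℝ) + f + 2) * φ) * J :=
      mul_le_mul_of_nonneg_right n1 hJ0
    have t3 : sn (k + u) x₄ * J ≤ (M₂ u + 2 * (60 * ((k : ℝ) + f + 2)) * φ) * J :=
      mul_le_mul_of_nonneg_right n2 hJ0
    have hC0 : 0 ≤ 60 * ((k : ℝ) + f + 2) * φ * J := mul_nonneg hCφ0 hJ0
    have t4 : ((⌊M₂ u * (J : ℝ)⌋₊ : ℝ) - ⌊M₁ u * (J : ℝ)⌋₊) +
        2 * ((J : ℝ) - ⌊M₂ u * (J : ℝ)⌋₊) - ((1 - sn (k + u) x₄) - η) * J -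
        ((1 - sn (k + u) j) - η) * J ≤ 3 * (60 * ((k : ℝ) + f + 2) * φ * J) + 2 + 2 * (η * J) := by
      linarith
    have t5 := (mul_le_mul_of_nonneg_right t4 hl2.le).trans
      (mul_le_mul_of_nonneg_left hl2' (show 0 ≤ 3 * (60 * ((k : ℝ) + f + 2) * φ * J) + 2 +
        2 * (η * J) by linarith))
    have t6 : ((⌊M₂ u * (J : ℝ)⌋₊ : ℝ) - ⌊M₁ u * (J : ℝ)⌋₊) * Real.log 2 +
        2 * (((J : ℝ) - ⌊M₂ u * (J : ℝ)⌋₊) * Real.log 2) -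
        ((1 - sn (k + u) x₄) - η) * Real.log 2 * J -
        ((1 - sn (k + u) j) - η) * Real.log 2 * J =
        (((⌊M₂ u * (J : ℝ)⌋₊ : ℝ) - ⌊M₁ u * (J : ℝ)⌋₊) + 2 * ((J : ℝ) - ⌊M₂ u * (J : ℝ)⌋₊) -
        ((1 - sn (k + u) x₄) - η) * J - ((1 - sn (k + u) j) - η) * J) * Real.log 2 := by ring
    rw [t6]
    linarith
  have hS := sum_le_sum hB
  rw [sum_const, card_range, nsmul_eq_mul] at hS
  have hφJ : φ * J = 100 * (((f : ℝ) + 1) * (η * J)) := by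
    rw [← hηφ]
    ring
  obtain ⟨Y, hY⟩ : ∃ Y : ℝ, Y = 60 * ((k : ℝ) + f + 2) * φ * J := ⟨_, rfl⟩
  have hYφ : 120 * (φ * J) ≤ Y := by
    have h1 : 0 ≤ ((k : ℝ) + f) * (φ * J) := by positivity
    rw [hY]
    linarith
  have hfη : η * J ≤ ((f : ℝ) + 1) * (η * J) := by
    have : 0 ≤ (f : ℝ) * (η * J) := by positivity
    linarith
  have hfY : 0 ≤ (f : ℝ) * Y := by
    have : 0 ≤ φ * J := by positivity
    exact mul_nonneg hf0 (by linarith)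
  have hfφ' : 120 * (f * (φ * J)) ≤ f * Y := by
    have := mul_le_mul_of_nonneg_left hYφ hf0
    linarith
  have hfη' : (f : ℝ) * (η * J) ≤ f * (φ * J) / 100 := by
    rw [hφJ]
    have := mul_le_mul_of_nonneg_left hfη hf0
    linarith
  have hff : (f : ℝ) * (((f : ℝ) + 1) * (η * J)) = f * (φ * J) / 100 := by
    rw [hφJ]
    ring
  have t7 : 8 * ((f : ℝ) + 1) * (60 * ((k : ℝ) + f + 2)) * φ * J = 8 * (f * Y) + 8 * Y := by
    rw [hY]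
    ring
  rw [← hY] at hS ⊢
  have t8 : (f : ℝ) * (21 / 10 * Y + 6 * (η * J) + 9 * (((f : ℝ) + 1) * (η * J))) =
      21 / 10 * (f * Y) + 6 * (f * (η * J)) + 9 * (f * (((f : ℝ) + 1) * (η * J))) := by ring
  rw [t8] at hS
  have t9 : (κn + 8 * ((f : ℝ) + 1) * (60 * ((k : ℝ) + f + 2)) * φ) * J =
      κn * J + 8 * ((f : ℝ) + 1) * (60 * ((k : ℝ) + f + 2)) * φ * J := by ring
  have : 0 ≤ f * (φ * J) := by positivity
  linarith

end Pool.VA83
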