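import Pool.Agent.H83.VA.Cla
import Pool.Agent.H83.VP.V0pD
import Pool.Agent.H48.V0T.Nev
import Pool.Agent.H91.LA.Sup

/-!
# The class theorem for a steep place and a flatter last place

`ta_of`: `TaStmt` from the row `XrowStmt` and from no look-ahead `XnlDStmt`.
-/

set_option autoImplicit false

namespace Pool.VA83

open Finset Real MvPolynomial
open Pool.Agent.H49.Ent Pool.Agent.H32.Dense
open Pool.STK hiding pr2
open Pool.KA Pool.KSAT Pool.K2S Pool.PB Pool.S6C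
open Pool.GEN Pool.CHT Pool.CHX Pool.ISO Pool.LA91 Pool.AVG71 Pool.AVG5 Pool.D2F2 Pool.AVG57
open Pool.RCD Pool.AVG96 Pool.OWN68 Pool.V0F Pool.V0Q Pool.V0T Pool.V0S Pool.T4C72 Pool.XR71
open Pool.VP83
open Pool.PB.Trl (rt rt_mem t_rt)
open Pool.AJW (CfB)
open Pool.BFL (Pb)
open Pool.KVA (MI)
open Pool.FS21 (oth)
open Pool.D2R (WinB gnh hgt hyb chs)

/-- The exact time determines the window. -/
theorem det_T1 {m J : ℕ} {F : Fam m J} {p : F.Ω → ℝ} {α : Type} (z : F.Ω → α) (W : ℕ) :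
    Det p (fun ω => (z ω, F.W ω)) (F.T1 W) := by
  intro ω ν _ _ e
  have h1 : F.T ω = F.T ν := (Prod.ext_iff.mp (Prod.ext_iff.mp e).2).1
  unfold Fam.T1
  rw [h1]

/-- The digits of the last place are few bits given the target with more digits. -/
theorem nh_few {m J : ℕ} {F : Fam m J} {p : F.Ω → ℝ} (hp : IsLaw p) {κ : Fin m} {w M : ℝ}
    {Hn : LnT F → MvPolynomial (Option (Fin m)) ℝ} {N : ℕ} (hM : M * J ≤ N) {α : Type}
    (z : F.Ω → α) :
    CH p (nh F κ w M Hn) (fun ω => (⌊(2 : ℝ) ^ N * ojet F κ 0 (Hn (slam F ⌊w * J⌋₊ ω)) ω⌋, z ω)) ≤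
      Real.log 5 := by
  have e4 := CH_dig hp (a := (N : ℝ)) (b := M * J)
    (fun ω => ojet F κ 0 (Hn (slam F ⌊w * J⌋₊ ω)) ω)
    (fun ω => (⌊(2 : ℝ) ^ N * ojet F κ 0 (Hn (slam F ⌊w * J⌋₊ ω)) ω⌋, z ω))
    (fun ω ν hω hν e => by
      have := (Prod.ext_iff.mp e).1
      simpa only [Real.rpow_natCast] using this)
  rw [max_eq_right (by linarith), zero_mul, zero_add] at e4
  exact e4

/-- **The class theorem**, from its parts. -/
theorem ta_of (hrow : XrowStmt) (hnl : XnlDStmt) : TaStmt := by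
  intro D D' k al be h lam0 hD hDD hk hbe hbal hh hh1 hlam hlam'
  have hl2 : 0 < Real.log 2 := Real.log_pos one_lt_two
  have hl5 : 0 < Real.log 5 := Real.log_pos (by norm_num)
  have hal : 1 < al := by linarith only [hbe, hbal]
  have hk0 : (0 : ℝ) ≤ k := Nat.cast_nonneg k
  obtain ⟨θ, hθ⟩ : ∃ θ : ℝ, θ = be / al := ⟨_, rfl⟩
  have hθ0 : 0 < θ := by
    rw [hθ]
    exact div_pos (by linarith only [hbe]) (by linarith only [hal])
  have hθ1 : θ < 1 := by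
    rw [hθ, div_lt_one (by linarith only [hal])]
    exact hbal
  obtain ⟨s₀, hs₀⟩ : ∃ s₀ : ℝ, s₀ = 2 * be / lam0 := ⟨_, rfl⟩
  have hs0 : 0 < s₀ := by
    rw [hs₀]
    exact div_pos (by linarith only [hbe]) hlam
  obtain ⟨ξ, hξ⟩ : ∃ ξ : ℝ, ξ = min (min 1 (al - 1)) (min ((al - 1) / s₀)
    ((1 - θ) / (2 * θ))) := ⟨_, rfl⟩
  have hal0 : 0 < al - 1 := by linarith only [hal]
  have ξ0 : 0 < ξ := by
    rw [hξ]
    exact lt_min (lt_min one_pos hal0) (lt_min (div_pos hal0 hs0)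
      (div_pos (by linarith only [hθ1]) (by linarith only [hθ0])))
  have ξ1 : ξ ≤ 1 := by
    rw [hξ]
    exact (min_le_left _ _).trans (min_le_left _ _)
  have ξ2 : ξ ≤ al - 1 := by
    rw [hξ]
    exact (min_le_left _ _).trans (min_le_right _ _)
  have ξ3 : ξ * s₀ ≤ al - 1 := by
    rw [← le_div_iff₀ hs0, hξ]
    exact (min_le_right _ _).trans (min_le_left _ _)
  have ξ4 : θ * (1 + ξ) + (1 - θ) / 2 ≤ 1 := by
    have e1 : ξ ≤ (1 - θ) / (2 * θ) := by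
      rw [hξ]
      exact (min_le_right _ _).trans (min_le_right _ _)
    rw [le_div_iff₀ (by linarith only [hθ0])] at e1
    linarith only [e1]
  have hμ0 : 0 < (1 - θ) / 2 := by linarith only [hθ1]
  have ξ5 : be / al * (1 + ξ) ≤ 1 := by
    rw [← hθ]
    linarith only [ξ4, hμ0]
  obtain ⟨hx, hhx⟩ : ∃ hx : ℝ, hx = h * θ := ⟨_, rfl⟩
  have hx0 : 0 < hx := by
    rw [hhx]
    exact mul_pos hh hθ0
  have hx1 : hx < 1 := by
    rw [hhx]
    have : h * θ ≤ 1 * θ := mul_le_mul_of_nonneg_right hh1 hθ0.le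
    linarith only [this, hθ1]
  have hxξ : 0 < hx * ξ := mul_pos hx0 ξ0
  have hxξ1 : hx * ξ < ξ := by
    have := mul_lt_mul_of_pos_right hx1 ξ0
    linarith only [this]
  obtain ⟨π₀, δ₀, T₀, hπ, hδ, HV⟩ := v0pD 2 D' D' k (D' + 1) (1 - (1 - hx) * ξ)
    (1 - ξ + hx * ξ / 2) 1 (1 / 2) (hD.trans hDD) le_rfl le_rfl hk (by linarith only [ξ1, hxξ])
    (by linarith only [hxξ1]) (by linarith only [ξ1, hxξ]) (by linarith only [hxξ]) one_pos le_rfl
    (by norm_num)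
  refine ⟨ξ, hx * ξ / 8, δ₀ / 16, max T₀ 1, ξ0, ξ1, ξ5, by positivity, by positivity,
    fun T hT => ?_⟩
  obtain ⟨Λ₁, hΛ₁, HV⟩ := HV T ((le_max_left _ _).trans hT)
  have hT1 : 1 ≤ T := (le_max_right _ _).trans hT
  refine ⟨Λ₁ + 4 * T + 2 * k + 20, by linarith only [hΛ₁, hT1, hk0], fun ι hι => ?_⟩
  obtain ⟨Cg, hCg, HG⟩ := grA D D' k
  obtain ⟨Cc, hCc, HC⟩ := cel_A (k + 2) D k
  obtain ⟨p₀, hp₀, HV⟩ := HV Cg
  obtain ⟨p₁, hp₁, HR⟩ := hrow k al be h ξ δ₀ π₀ hh.le hh1 ξ0 ξ1 hδ hπ (by linarith only [hal])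
  obtain ⟨p₂, hp₂, HN⟩ := hnl k al be h ξ lam0 T δ₀ ξ0 ξ1 hT1 hδ hbe hbal ξ5 hlam hlam'
  obtain ⟨ψ, hψ, ψ0, ψ1, ψ2, ψ3, ψ4, ψ5, ψ6, ψ7, ψ8, ψ9⟩ := cst_A D' Cg Cc hp₀ hp₁ hp₂ hμ0 hι ξ0
    hδ hs0
  obtain ⟨Cy, hCy⟩ : ∃ Cy : ℝ, Cy = al + 4 * k + 100 := ⟨_, rfl⟩
  have hCy1 : 100 ≤ Cy := by linarith only [hCy, hal, hk0]
  have hψC : ψ / Cy ≤ ψ := div_le_self hψ.le (by linarith only [hCy1])
  refine ⟨ψ / Cy, div_pos hψ (by linarith only [hCy1]), ?_⟩
  intro m S c sn sp G b o w u φ e lam Bx hφu he0 he K₀ e₀ ρ₀ π₁ hfb hπ₁ Dr N M C₀ a Eb ηm ow η σ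
    lv bb fb fn nb n ks Wn E
  have hm : m = k + 2 := m_eq Bx.lad.inj Bx.img
  subst hm
  have hu := Bx.u0
  have hφ := Bx.lad.φ0
  obtain ⟨y, hy⟩ : ∃ y : ℝ, y = Cy * φ := ⟨_, rfl⟩
  have hyu : y ≤ ψ * u := by
    rw [hy]
    have e1 : Cy * φ ≤ Cy * (ψ / Cy * u) := mul_le_mul_of_nonneg_left hφu
      (by linarith only [hCy1])
    have e2 : Cy * (ψ / Cy * u) = ψ * u := by
      field_simp
    linarith only [e1, e2]
  have hy1 : 100 * φ ≤ y := by
    rw [hy]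
    exact mul_le_mul_of_nonneg_right hCy1 hφ.le
  have hyφ : φ ≤ y := by linarith only [hy1, hφ]
  have hy0 : 0 < y := by linarith only [hy1, hφ]
  have hy2 : al * φ + 4 * k * φ + 100 * φ = y := by
    rw [hy, hCy]
    ring
  have hkφ : 0 ≤ k * φ := mul_nonneg hk0 hφ.le
  have halφ : 0 ≤ al * φ := mul_nonneg (by linarith only [hal]) hφ.le
  have mu : ∀ {a a' : ℝ}, a ≤ a' → a * u ≤ a' * u := fun h => mul_le_mul_of_nonneg_right h hu.le
  have y4 : 4000 * y ≤ u := by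
    have := mu ψ3
    linarith only [this, hyu]
  rw [← hs₀] at Wn
  obtain ⟨w₁, x', x'', PWf, HFr⟩ := pw_A (Λ₁ := Λ₁) (T := T) (p₀ := p₀) (y := y) Bx Wn le_rfl hΛ₁
    hT1 (by linarith only [hy2, hkφ, halφ, hφ]) (by linarith only [y4, hyφ]) hs0 (by
      have e1 := mu ψ8
      have e2 : 4 * s₀ * φ ≤ 4 * s₀ * (ψ * u) :=
        mul_le_mul_of_nonneg_left (hyφ.trans hyu) (by positivity)
      linarith only [e1, e2]) ((he.trans hψC).trans ψ0)
  have hLam : (10 : ℝ) ≤ Λ₁ + 4 * T + 2 * k + 20 := by linarith only [hΛ₁, hT1, hk0]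
  have B1 := HV Bx.lad.toLadR.lad (hyu.trans (mu ψ0)) PWf Bx.spb HFr (Bx.rn w₁) E
  have B2 := HR Bx hLam hy0.le (hyu.trans (mu ψ1)) ((hyφ.trans hyu).trans (mu ψ1)) he0
    ((he.trans hψC).trans ψ1) PWf.hw1 PWf.hw2 hfb hπ₁ D' E
  have hon := abs_le.1 Wn.on
  have hoks := abs_le.1 Wn.oks
  have B3 := HN (K₀ := K₀) (e₀ := e₀) (ρ₀ := ρ₀) Bx (by linarith only [hΛ₁]) hy0.le
    (hyu.trans (mu ψ2)) ((hyφ.trans hyu).trans (mu ψ2)) he0
    ((he.trans hψC).trans ψ2) PWf.hw1 PWf.hw2 PWf.jG PWf.wj (by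
      have e1 : u / s₀ = lam0 / (2 * be) * u := by
        rw [hs₀, div_div_eq_mul_div]
        ring
      linarith only [hoks.2, e1]) D' E
  have B4 := pos_bas Bx.lad.pos
  obtain ⟨Z, hZ⟩ : ∃ Z : ℝ, Z = 10 + nb + n + cA (D' + 1) + ((D' : ℝ) + 2) * Real.log 5 +
    2 * k * Real.log 5 + 8 / (hx * ξ) := ⟨_, rfl⟩
  obtain ⟨J₂, hJ₂⟩ := exists_nat_ge (Z / φ)
  refine Bas.mono J₂ ((B1.and B2).and (B3.and B4)) ?_
  rintro J hJ F A ⟨⟨H1, H2⟩, H3, hA⟩ κ z g₀ Gc H GN HN' WB Rd cfb hLb hLn hDj hJt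
  clear B1 B2 B3 B4 HV HR HN HFr hfb
  have hcl := isLaw_cond F.isLaw hA
  have h0 := hcl.nonneg
  have hJ0 : (0 : ℝ) ≤ J := Nat.cast_nonneg J
  have mj : ∀ {a a' : ℝ}, a ≤ a' → a * J ≤ a' * J := fun h => mul_le_mul_of_nonneg_right h hJ0
  have hZφ : Z ≤ φ * J := by
    have e1 : (J₂ : ℝ) ≤ J := by exact_mod_cast hJ
    have e2 := hJ₂.trans e1
    rw [div_le_iff₀ hφ] at e2
    linarith only [e2]
  have hcA : 0 ≤ cA (D' + 1) := cA_nonneg _
  have hnb0 : (0 : ℝ) ≤ nb := Nat.cast_nonneg _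
  have hn0 : (0 : ℝ) ≤ n := Nat.cast_nonneg _
  have hCg0 : (0 : ℝ) ≤ Cg := Nat.cast_nonneg _
  have hD0 : (0 : ℝ) ≤ D' := Nat.cast_nonneg _
  have hD5 : 0 ≤ ((D' : ℝ) + 2) * Real.log 5 := by positivity
  have hk5 : 0 ≤ 2 * k * Real.log 5 := by positivity
  have h8 : 0 < 8 / (hx * ξ) := div_pos (by norm_num) hxξ
  have big : 10 ≤ φ * J := by linarith only [hZφ, hZ, hcA, hnb0, hn0, h8, hD5, hk5]
  have bnb : (nb : ℝ) ≤ φ * J := by linarith only [hZφ, hZ, hcA, hn0, h8, hD5, hk5]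
  have bn : (n : ℝ) ≤ φ * J := by linarith only [hZφ, hZ, hcA, hnb0, h8, hD5, hk5]
  have bc : cA (D' + 1) + ((D' : ℝ) + 2) * Real.log 5 + 2 * k * Real.log 5 ≤ φ * J := by
    linarith only [hZφ, hZ, hnb0, hn0, h8]
  have b8 : 8 / (hx * ξ) ≤ φ * J := by linarith only [hZφ, hZ, hcA, hnb0, hn0, hD5, hk5]
  have b5 : Real.log 5 ≤ φ * J := by
    have : 0 ≤ ((D' : ℝ) + 1) * Real.log 5 := by positivity
    linarith only [bc, hcA, hk5, this]
  have hJpos : (0 : ℝ) < J := by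
    rcases hJ0.lt_or_eq with h | h
    · exact h
    · rw [← h, mul_zero] at big
      linarith only [big]
  have hyJ : 1000 ≤ y * J := by
    have := mj hy1
    linarith only [this, big]
  have huJ : 0 < u * J := mul_pos hu hJpos
  have hyuJ : 4000 * (y * J) ≤ u * J := by
    have := mj y4
    linarith only [this]
  -- the numbers
  obtain ⟨q, hq⟩ : ∃ q : ℕ, q = ⌊(u + 500 * y) * (J : ℝ)⌋₊ := ⟨_, rfl⟩
  obtain ⟨X, hX⟩ : ∃ X : ℕ, X = ⌊1 * u * (J : ℝ)⌋₊ := ⟨_, rfl⟩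
  obtain ⟨Xu, hXu⟩ : ∃ Xu : ℕ, Xu = ⌊ξ * u * (J : ℝ)⌋₊ := ⟨_, rfl⟩
  obtain ⟨Y, hY⟩ : ∃ Y : ℕ, Y = ⌈1000 * y * (J : ℝ)⌉₊ + 3 := ⟨_, rfl⟩
  have hξu0 : 0 ≤ ξ * u * J := by positivity
  have hξuJ : ξ * u * J ≤ 1 * u * J := mj (mu ξ1)
  have X1 : (X : ℝ) ≤ 1 * u * J := by
    rw [hX]
    exact Nat.floor_le (by linarith only [huJ])
  have X2 : 1 * u * J ≤ X + 1 := by
    rw [hX]
    exact (Nat.lt_floor_add_one _).le
  have Xu1 : (Xu : ℝ) ≤ ξ * u * J := by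
    rw [hXu]
    exact Nat.floor_le hξu0
  have Xu2 : ξ * u * J ≤ Xu + 1 := by
    rw [hXu]
    exact (Nat.lt_floor_add_one _).le
  have XuX : Xu ≤ X := by
    rw [hXu, hX]
    exact Nat.floor_le_floor hξuJ
  have q1 : (q : ℝ) ≤ (u + 500 * y) * J := by
    rw [hq]
    exact Nat.floor_le (by positivity)
  have hY2 : (Y : ℝ) ≤ 2000 * (y * J) := by
    have e1 := (Nat.ceil_lt_add_one (show 0 ≤ 1000 * y * (J : ℝ) by positivity)).le
    rw [hY]
    push_cast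
    linarith only [e1, hyJ]
  obtain ⟨l₀, x₁, n1, n2, n3, n4, n5, n6⟩ := num_A (J := J) hu big hyφ y4 (by
    have e1 := mu ψ4
    linarith only [e1, hyu]) ξ4 hlam (hθ ▸ hlam') ξ0
  rw [← hq] at n3
  rw [← hX] at n6
  obtain ⟨qt, qt0, qt1⟩ : ∃ qt : Fin 2 → ℕ, qt 0 = q ∧ qt 1 = l₀ := ⟨![q, l₀], rfl, rfl⟩
  obtain ⟨Xt, Xt0, Xt1⟩ : ∃ Xt : Fin 2 → ℕ, Xt 0 = Xu ∧ Xt 1 = x₁ := ⟨![Xu, x₁], rfl, rfl⟩
  -- the levels
  have hkb := Wn.fbN 0 (Nat.zero_le _)
  have hkw := Wn.fnN 0 (Nat.zero_le _)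
  have hlv := Wn.lv
  have hob := Wn.ob
  have how := Wn.ow0
  have hbw := Bx.bw
  have hwo := Bx.wo
  have hΛu : 0 ≤ (Λ₁ + 4 * T + 2 * k + 20) * u := by positivity
  have b1 : b ≤ w := by linarith only [hbw, hΛu]
  have hηm0 : 0 ≤ ηm := (WB.hη _ hkw).1.trans (WB.hη _ hkw).2
  have hηφ : ηm ≤ φ := (le_mul_of_one_le_left hηm0 WB.C1).trans Wn.C0
  obtain ⟨γ, hγ⟩ : ∃ γ : ℕ → ℕ, γ = g₀ (fn 0) := ⟨_, rfl⟩
  have hg1 : ∀ l ≤ k + 1, (sn l w - φ) * J ≤ γ l := fun l hl => by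
    obtain ⟨-, -, g1, -⟩ := WB.g_num hkw hl
    rw [hlv _ hkw l hl, how] at g1
    rw [hγ]
    have := mj hηφ
    linarith only [this, g1]
  have hg2 : ∀ l ≤ k + 1, (γ l : ℝ) ≤ sn l w * J := fun l hl => by
    obtain ⟨-, -, -, g2⟩ := WB.g_num hkw hl
    rw [hlv _ hkw l hl, how] at g2
    rw [hγ]
    exact g2
  have ho1 : ∀ t ≤ n, ow (fn t) ≤ 1 := fun t ht => by
    have e1 := (mono_ch fun t ht => (Wn.ns t ht).1) t n ht le_rfl
    have e2 := Bx.o1
    have e3 : u ≤ (Λ₁ + 4 * T + 2 * k + 20) * u := by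
      have := mu (show 1 ≤ Λ₁ + 4 * T + 2 * k + 20 by linarith only [hLam])
      linarith only [this]
    linarith only [e1, e2, e3, hon.2, hwo, hyφ, y4, hφ, hu]
  have hw1 : w ≤ 1 := by
    rw [← how]
    exact ho1 0 (Nat.zero_le _)
  have hwJ : ⌊w * (J : ℝ)⌋₊ ≤ J := floor_le hw1 J
  have hsup : ∀ ω, 0 < Pool.Agent.H49.Ent.cond F.p A True ω → A ω := fun ω hω => of_cond_pos hω
  -- the labels
  obtain ⟨HT, hHT⟩ : ∃ HT : LnT F → ℕ → MvPolynomial (Option (Fin (k + 2))) ℝ,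
    HT = fun s l => if l ≤ k + 1 then HN' s l else 0 := ⟨_, rfl⟩
  have hLb' : LbT F c k 1 D' (ow (fn 0)) u φ E sn A (g₀ (fn 0)) (Gc (fn 0)) GN HT := by
    rw [hHT, how]
    exact hLb.tr
  have LDh := ldt_of WB hDD (kb := fb 0) (kw := fn 0) hkb
    hkw (φ := φ) (E := E) (sn := sn) (by rw [hob, how]; exact b1)
    (by rw [how]; exact hw1) Wn.C0 (fun l hl => hlv _ hkb l hl) (by rw [hob]; exact cfb) hLb'
  rw [hob, how] at LDh
  obtain ⟨H', hH'⟩ : ∃ H' : LnT F → ℕ → MvPolynomial (Option (Fin (k + 2))) ℝ,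
    H' = fhT H HT (fb 0) k ⌊b * J⌋₊ ⌊w * J⌋₊ := ⟨_, rfl⟩
  rw [← hH'] at LDh
  have hH'N : ∀ s v, v ≤ 1 → H' s (k + v) = HN' s (k + v) := by
    intro s' v hv
    rw [hH', hHT]
    unfold fhT
    rw [if_neg (by omega)]
    show (if k + v ≤ k + 1 then HN' s' (k + v) else 0) = _
    rw [if_pos (by omega)]
  have hjet : ∀ nn : ℕ → ℕ → ℝ, jet2 F c ⌊w * J⌋₊ (fhT H HN' (fb 0) k ⌊b * J⌋₊ ⌊w * J⌋₊) 0 k nn =
      jet2 F c ⌊w * J⌋₊ H' 0 k nn := fun nn => by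
    rw [hH']
    exact jet2_fh H HN' HT _ _ _ _ nn
  obtain ⟨G₀, hG₀⟩ : ∃ G₀ : PtT F → ℕ → MvPolynomial (Option (Fin (k + 2))) ℝ,
    G₀ = frT Gc GN (fb 0) k := ⟨_, rfl⟩
  have hcls0 : ∀ ω, A ω → ∀ l ≤ k + 1, G₀ (ptr F J ω) l = H' (slam F ⌊w * J⌋₊ ω) l := by
    intro ω hω l hl
    have e1 := frt_cls WB (kb := fb 0) (kw := fn 0) hkb
      (by rw [hob, how]; exact b1) (by rw [how]; exact hw1) hLb' ω hω l hl
    rw [hG₀, hH', e1, hob, how]
  have hdeg : ∀ s' l, (H' s' l).totalDegree ≤ D' := fun s' l => by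
    by_cases hl : l ≤ k + 1
    · rw [hH']
      exact fht_deg WB hDD hkb hLb' _ _ s' l hl
    · rw [hH', hHT]
      unfold fhT
      rw [if_neg (by omega)]
      show (if l ≤ k + 1 then HN' s' l else 0).totalDegree ≤ D'
      rw [if_neg hl, MvPolynomial.totalDegree_zero]
      exact Nat.zero_le _
  obtain ⟨Hn, hHn⟩ : ∃ Hn : LnT F → MvPolynomial (Option (Fin (k + 2))) ℝ,
    Hn = fun s => HN' s (k + 1) := ⟨_, rfl⟩
  obtain ⟨TV, hTV⟩ : ∃ TV : F.Ω → Fin 2 → ℝ, TV = TVA F c k ⌊w * J⌋₊ qt γ H' := ⟨_, rfl⟩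
  have hTV0 : ∀ ω, TV ω 0 = 2 ^ (γ k + q) * ojet F (c k) 0 (H' (slam F ⌊w * J⌋₊ ω) k) ω := by
    intro ω
    rw [hTV]
    unfold TVA
    rw [qt0]
    rfl
  have hTV1 : ∀ ω, TV ω 1 =
      2 ^ (γ (k + 1) + l₀) * ojet F (c (k + 1)) 0 (Hn (slam F ⌊w * J⌋₊ ω)) ω := by
    intro ω
    have e1 : H' (slam F ⌊w * J⌋₊ ω) (k + 1) = Hn (slam F ⌊w * J⌋₊ ω) := by
      rw [hH'N _ 1 le_rfl, hHn]
    rw [hTV, ← e1, ← qt1]
    rfl
  have hXEv : XEv F c k D' ⌊(u + 500 * y) * J⌋₊ sn b w φ E K₀ e₀ ρ₀ A (H (fb 0)) H' H' H' Hn γ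
      (fun ω => TV ω 0) :=
    { ld := LDh.toLD
      hH := LDh.hb
      ln := by
        obtain ⟨V, z₁, z₂, g, h1, h2⟩ := hLn
        exact ⟨V, z₁, z₂, g, h1, fun s => by rw [h2, hHn]⟩
      cn := by
        rw [hHn]
        exact hLb.cfb (k + 1) (by omega) le_rfl
      γb := fun l hl => ⟨hg1 l (by omega), hg2 l (by omega)⟩
      tv := fun ω _ => by
        rw [hTV0, hq] }
  -- the gradients
  obtain ⟨gt, hgt'⟩ : ∃ gt : F.Ω → ℕ → ℝ,
    gt = fun ω i => ggT F c k Gc GN (fb 0) (fn n) γ k ω i := ⟨_, rfl⟩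
  obtain ⟨hGb, hGg⟩ := HG Bx Wn (by linarith only [hLam]) (y := y)
    (by linarith only [hy2, hkφ, hφ]) (by linarith only [y4, hy0]) hs0 hal ξ0
    (by linarith only [ξ2]) ξ1 ξ3 WB Rd hLb big bnb bn (Xu := Xu) Xu1
  rw [← hY, ← hγ] at hGb
  rw [← hY, ← hγ, ← hq, ← hG₀] at hGg
  have hcells := fun ω ν hω hν hpt => HC Bx Wn hLam hyφ y4 (by
    have e1 := mu ψ9
    have e2 : (Cc : ℝ) * (2 * φ) ≤ Cc * (2 * (ψ * u)) :=
      mul_le_mul_of_nonneg_left (by linarith only [hyφ, hyu]) (Nat.cast_nonneg _)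
    linarith only [e1, e2]) GN WB Rd big ω ν hω hν hpt
  rw [← hγ, ← hq, ← hG₀] at hcells
  obtain ⟨Cj, hCj⟩ : ∃ Cj : F.Ω → _, Cj = chT F k 1 ks Gc GN (fb 0) fn := ⟨_, rfl⟩
  obtain ⟨Cx, hCx⟩ : ∃ Cx : F.Ω → _, Cx = chT F k 1 n Gc GN (fb 0) fn := ⟨_, rfl⟩
  have U0 : (0 : ℝ) ≤ 2 ^ (Cg * Y) := by positivity
  have hGrd : GrTC F c k q X γ (2 ^ (Cg * Y)) A G₀ Xt 0
      (fun ω (j : Fin k) => 2 ^ Xu / 2 ^ X * gt ω j) TV (fun _ => ()) Cj Cx := by
    rw [hTV, hCj, hCx]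
    refine grtc_A hwJ U0 qt0 (by rw [qt1, Xt1]; exact n3) Xt0 XuX (fun ω hω v => ?_)
      (fun ω hω j hj => ?_) (fun ω ν hω hν ht hn => ?_)
    · exact hcls0 ω hω _ (by have := v.2; omega)
    · rw [hgt']
      exact hGb ω hω k le_rfl (by omega) j hj
    · rw [hgt']
      exact hGg ω ν hω hν ht hn
  -- the records
  have hbn := (mono_ch fun t ht => (Wn.ns t ht).1)
  have hchp : ∀ k₁ ≤ n,
      Cl2 (ptr F J) (vg (ow (fn k₁)) J F) A (chT F k 1 k₁ Gc GN (fb 0) fn) := by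
    intro k₁ hk₁
    exact cht_cl2 WB (ho1 k₁ hk₁) hkb (fun t ht => Wn.fnN t (ht.trans hk₁))
      (by rw [hob, how]; exact b1) (fun t ht => hbn t k₁ ht hk₁) hLb'
  have hcww : Det (Pool.Agent.H49.Ent.cond F.p A True) (cR F A w₁) (cR F A w) := by
    refine det_cR ((cl2_cR A w).mono ⟨fun x => x, fun _ _ => rfl⟩ ?_) hsup
    have hw₁1 : (w₁ : ℝ) ≤ 1 := PWf.wj.trans (ho1 ks Wn.kn)
    obtain ⟨φ', hφ'⟩ := vg_mono PWf.hw1 hw₁1 J F
    exact ⟨φ', fun ω _ => hφ' ω⟩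
  have hww : ⌊w * (J : ℝ)⌋₊ ≤ ⌊(w₁ : ℝ) * J⌋₊ := Nat.floor_le_floor (mj PWf.hw1)
  have hWJ : ∀ W : ℕ, (W : ℝ) ≤ (w + 2 * φ) * J → W ≤ J := fun W hW => by
    have e1 : w + 2 * φ ≤ 1 := by
      have e2 := Bx.o1
      have e3 : u ≤ (Λ₁ + 4 * T + 2 * k + 20) * u := by
        have := mu (show 1 ≤ Λ₁ + 4 * T + 2 * k + 20 by linarith only [hLam])
        linarith only [this]
      linarith only [e2, e3, hwo, hyφ, y4, hφ, hu]
    have e2 := mj e1
    rw [one_mul] at e2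
    exact_mod_cast hW.trans e2
  -- the digits of the last place
  have hnh : ∀ B : F.Ω → Prop, 0 < Pe F.p B → CH (Pool.Agent.H49.Ent.cond F.p B True)
      (nh F (c (k + 1)) w (sn (k + 1) w + be / al * (u + 500 * y + ξ * u)) Hn)
      (fun ω => (⌊(2 : ℝ) ^ Xt 1 * TV ω 1⌋, F.W ω)) ≤ p₁ * u * J := by
    intro B hB
    have e1 := nh_few (isLaw_cond F.isLaw hB) (κ := c (k + 1)) (w := w)
      (M := sn (k + 1) w + be / al * (u + 500 * y + ξ * u)) (Hn := Hn) (N := γ (k + 1) + l₀ + x₁)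
      (by
        rw [← hθ]
        have e1 := hg1 (k + 1) le_rfl
        have e2 : θ * (500 * y) ≤ 1 * (500 * y) :=
          mul_le_mul_of_nonneg_right hθ1.le (by linarith only [hy0])
        have e3 := mj (show sn (k + 1) w + θ * (u + 500 * y + ξ * u) ≤
          (sn (k + 1) w - φ) + (θ * (1 + ξ) * u + 501 * y) by
            linarith only [e2, hyφ])
        rw [add_mul] at e3
        push_cast at n4 ⊢
        linarith only [e1, e3, n4]) F.W
    have e2 : (fun ω => (⌊(2 : ℝ) ^ Xt 1 * TV ω 1⌋, F.W ω)) = fun ω =>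
        (⌊(2 : ℝ) ^ (γ (k + 1) + l₀ + x₁) * ojet F (c (k + 1)) 0 (Hn (slam F ⌊w * J⌋₊ ω)) ω⌋,
          F.W ω) := by
      funext ω
      rw [hTV1, Xt1, ← mul_assoc, ← pow_add, Nat.add_comm x₁]
    rw [e2]
    refine e1.trans (b5.trans ?_)
    exact mj ((hyφ.trans hyu).trans (mu ψ1))
  have hrow' := H2 (H (fb 0)) H' H' H' Hn γ (fun ω => TV ω 0) _
    (fun ω => ⌊(2 : ℝ) ^ Xt 1 * TV ω 1⌋) hXEv (fun B h1 h2 => hnh B
      (lt_of_lt_of_le (mul_pos hπ hA) h2))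
  have hnl' := H3 (H (fb 0)) H' H' H' Hn γ TV Xt l₀ hXEv (hg1 (k + 1) le_rfl)
    (hg2 (k + 1) le_rfl) (fun ω _ => hTV1 ω) (Xt0.trans hXu) n1 (by
      rw [Xt1, ← hθ]
      exact n5.trans (mj (by linarith only [hy0])))
  -- the codes
  have hδu : δ₀ / 16 * u * J + ((((D' + 1 : ℕ) : ℝ) + 1) * (503 * y * J * Real.log 2 +
      Real.log 5) + 2 * k * Real.log 5) + cA (D' + 1) ≤ δ₀ / 2 * u * J := by
    have e1 := mu ψ7
    have e2 : 16000 * ((D' : ℝ) + 3) * y ≤ δ₀ * u := by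
      have : 16000 * ((D' : ℝ) + 3) * y ≤ 16000 * ((D' : ℝ) + 3) * (ψ * u) :=
        mul_le_mul_of_nonneg_left hyu (by positivity)
      linarith only [this, e1]
    have e3 := mj e2
    have e4 : ((D' : ℝ) + 2) * (y * J) * Real.log 2 ≤ ((D' : ℝ) + 2) * (y * J) * 1 :=
      mul_le_mul_of_nonneg_left (by
        have := Real.log_two_lt_d9
        linarith only [this]) (by positivity)
    have e5 := mj hyφ
    have e6 : 0 ≤ ((D' : ℝ) + 2) * (y * J) := by positivity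
    have e7 : 0 ≤ y * J := by linarith only [hyJ]
    push_cast
    have e8 : ((D' : ℝ) + 1 + 1) * (503 * y * J * Real.log 2 + Real.log 5) =
      503 * (((D' : ℝ) + 2) * (y * J) * Real.log 2) + ((D' : ℝ) + 2) * Real.log 5 := by ring
    rw [e8]
    have e9 : 16000 * ((D' : ℝ) + 3) * y * J = 16000 * (((D' : ℝ) + 2) * (y * J)) +
      16000 * (y * J) := by ring
    rw [e9] at e3
    linarith only [e3, e4, e5, e6, e7, bc, hδ]
  have hlev : ∀ l ≤ k + 1, 0 ≤ sn l w := fun l hl => by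
    have e1 := (Bx.room l hl).1
    have e2 := Bx.lad.st
    have e3 : sn l b ≤ sn l w + φ := by
      rcases Nat.lt_or_ge l k with h | h
      · have e4 := abs_le.1 (Bx.lad.fl l h b Bx.lad.bG le_rfl (by linarith only [b1, hwo, hΛu]))
        have e5 := abs_le.1 (Bx.lad.fl l h w Bx.wG b1 (by linarith only [hwo, hΛu]))
        have e6 : u ≤ (Λ₁ + 4 * T + 2 * k + 20) * u := by
          have := mu (show 1 ≤ Λ₁ + 4 * T + 2 * k + 20 by linarith only [hLam])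
          linarith only [this]
        linarith only [e4.1, e5.1, e4.2, e5.2, hbw, e6, hyφ, y4, hφ, hu]
      · have e4 := e2 l h hl b Bx.lad.bG w Bx.wG le_rfl b1 (by linarith only [hwo, hΛu])
        linarith only [e4, b1]
    have e6 : u ≤ (Λ₁ + 4 * T + 2 * k + 20) * u := by
      have := mu (show 1 ≤ Λ₁ + 4 * T + 2 * k + 20 by linarith only [hLam])
      linarith only [this]
    linarith only [e1, e3, e6, hyφ, y4, hφ, hu]
  have hv2 : ∀ v : Fin 2, v = 0 ∨ v = 1 := by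
    intro v
    rcases v with ⟨v, hv⟩
    interval_cases v
    · left; rfl
    · right; rfl
  have hH'l : ∀ l, k ≤ l → l ≤ k + 1 → (fun s => H' s l) = fun s => HN' s l := by
    intro l h1 h2
    obtain ⟨v, rfl⟩ : ∃ v, l = k + v := ⟨l - k, by omega⟩
    funext s
    exact hH'N s v (by omega)
  have hdj' : ∀ v : Fin 2, CH (Pool.Agent.H49.Ent.cond F.p A True)
      (Pool.AVG57.cod F ⌊w * J⌋₊ (fun s => H' s (k + v)) (c (k + v)) (γ (k + v) + qt v + Xt v) 1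
        (D' + 1))
      (fun ω => (nrP F c k sn H' w (T * u) ω, ((), (cR F A w₁ ω, F.W ω)))) ≤
      δ₀ / 2 * u * J - cA (D' + 1) := by
    have key : ∀ (l N : ℕ), k ≤ l → l ≤ k + 1 → (N : ℝ) ≤ (sn l w + two k (1 + ξ)
        (be / al * (1 + ξ)) l * u) * J + 502 * y * J + 1 → CH (Pool.Agent.H49.Ent.cond F.p A True)
        (Pool.AVG57.cod F ⌊w * J⌋₊ (fun s => H' s l) (c l) N 1 (D' + 1))
        (fun ω => (nrP F c k sn H' w (T * u) ω, ((), (cR F A w₁ ω, F.W ω)))) ≤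
        δ₀ / 2 * u * J - cA (D' + 1) := by
      intro l N hl1 hl2 hN
      obtain ⟨N₀, hN₀⟩ : ∃ N₀ : ℕ, N₀ = ⌊(sn l w + two k (1 + ξ) (be / al * (1 + ξ)) l * u) *
        (J : ℝ)⌋₊ := ⟨_, rfl⟩
      have ht0 : 0 ≤ two k (1 + ξ) (be / al * (1 + ξ)) l := by
        unfold two
        rw [← hθ]
        split_ifs
        · linarith only [ξ0]
        · positivity
      have e1 := hDj l hl1 hl2 N₀ (by
        rw [hN₀]
        refine Nat.floor_le (mul_nonneg ?_ hJ0)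
        have := hlev l hl2
        have e2 := mul_nonneg ht0 hu.le
        linarith only [this, e2])
      rw [hjet, ← hH'l l hl1 hl2] at e1
      have e2 := Nat.lt_floor_add_one ((sn l w + two k (1 + ξ) (be / al * (1 + ξ)) l * u) *
        (J : ℝ))
      rw [← hN₀] at e2
      have e3 := cod_base hcl (F := F) (c := c) (w := ⌊w * J⌋₊) (H := H') (k := k) (D := D' + 1)
        (j₀ := 1) (l := l) (N := N₀) (N' := N) (d := 503 * y * J) (e := δ₀ / 16 * u * J)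
        (by linarith only [hN, e2, hyJ]) (by positivity)
        (n := fun (l' j' : ℕ) => sn l' w + T * u - (j' : ℝ) * w)
        (m0 := fun l => sn l w + T * u) (m1 := fun l => sn l w - w + T * u)
        (fun l _ => by
          show sn l w + T * u - ((0 : ℕ) : ℝ) * w ≤ _
          push_cast
          linarith only [])
        (fun l _ => by
          show sn l w + T * u - ((1 : ℕ) : ℝ) * w ≤ _
          push_cast
          linarith only []) hcww (fun _ => ()) e1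
      have e4 : (fun ω => ((jh F c k ⌊w * J⌋₊ H' (fun l => sn l w + T * u) ω,
          jv F c k ⌊w * J⌋₊ H' (fun l => sn l w - w + T * u) ω), ((), (cR F A w₁ ω, F.W ω)))) =
          fun ω => (nrP F c k sn H' w (T * u) ω, ((), (cR F A w₁ ω, F.W ω))) := rfl
      rw [e4] at e3
      linarith only [e3, hδu]
    intro v
    rcases hv2 v with rfl | rfl
    · refine key (k + 0) _ (by omega) (by omega) ?_
      rw [qt0, Xt0]
      have e1 := hg2 k (by omega)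
      have e2 : two k (1 + ξ) (be / al * (1 + ξ)) k = 1 + ξ := if_pos rfl
      show ((γ k + q + Xu : ℕ) : ℝ) ≤ (sn k w + two k (1 + ξ) (be / al * (1 + ξ)) k * u) * J +
        502 * y * J + 1
      rw [e2]
      push_cast
      linarith only [e1, q1, Xu1, hyJ]
    · refine key (k + 1) _ (by omega) (by omega) ?_
      rw [qt1, Xt1]
      have e1 := hg2 (k + 1) le_rfl
      have e2 : two k (1 + ξ) (be / al * (1 + ξ)) (k + 1) = be / al * (1 + ξ) :=
        if_neg (by omega)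
      show ((γ (k + 1) + l₀ + x₁ : ℕ) : ℝ) ≤ (sn (k + 1) w + two k (1 + ξ)
        (be / al * (1 + ξ)) (k + 1) * u) * J + 502 * y * J + 1
      rw [e2, ← hθ]
      push_cast at n5 ⊢
      linarith only [e1, n5, hyJ]
  have hjt' : ∀ v : Fin 2, CH (Pool.Agent.H49.Ent.cond F.p A True)
      (Pool.AVG57.cod F ⌊w * J⌋₊ (fun s => H' s (k + v)) (c (k + v)) (γ (k + v) + qt v) 0
        (D' + 1))
      (fun ω => (nrP F c k sn H' w (u + 100 * y) ω, ((), (cR F A (ow (fn n)) ω, F.W ω)))) ≤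
      δ₀ / 2 * u * J - cA (D' + 1) := by
    have key : ∀ (l N : ℕ), k ≤ l → l ≤ k + 1 → (N : ℝ) ≤ (sn l w + two k 1 lam0 l * u) * J +
        502 * y * J + 1 → CH (Pool.Agent.H49.Ent.cond F.p A True)
        (Pool.AVG57.cod F ⌊w * J⌋₊ (fun s => H' s l) (c l) N 0 (D' + 1))
        (fun ω => (nrP F c k sn H' w (u + 100 * y) ω, ((), (cR F A (ow (fn n)) ω, F.W ω)))) ≤
        δ₀ / 2 * u * J - cA (D' + 1) := by
      intro l N hl1 hl2 hN
      obtain ⟨N₀, hN₀⟩ : ∃ N₀ : ℕ, N₀ = ⌊(sn l w + two k 1 lam0 l * u) * (J : ℝ)⌋₊ := ⟨_, rfl⟩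
      have ht0 : 0 ≤ two k 1 lam0 l := by
        unfold two
        split_ifs
        · exact zero_le_one
        · exact hlam.le
      have e1 := hJt l hl1 hl2 N₀ (by
        rw [hN₀]
        refine Nat.floor_le (mul_nonneg ?_ hJ0)
        have := hlev l hl2
        have e2 := mul_nonneg ht0 hu.le
        linarith only [this, e2])
      rw [hjet, ← hH'l l hl1 hl2] at e1
      have e2 := Nat.lt_floor_add_one ((sn l w + two k 1 lam0 l * u) * (J : ℝ))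
      rw [← hN₀] at e2
      have e3 := cod_base hcl (F := F) (c := c) (w := ⌊w * J⌋₊) (H := H') (k := k) (D := D' + 1)
        (j₀ := 0) (l := l) (N := N₀) (N' := N) (d := 503 * y * J) (e := δ₀ / 16 * u * J)
        (by linarith only [hN, e2, hyJ]) (by positivity)
        (n := fun (l' j' : ℕ) => sn l' w + u + 400 * ((k : ℝ) + 2) * φ - (j' : ℝ) * w)
        (m0 := fun l => sn l w + (u + 100 * y)) (m1 := fun l => sn l w - w + (u + 100 * y))
        (fun l _ => by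
          show sn l w + u + 400 * ((k : ℝ) + 2) * φ - ((0 : ℕ) : ℝ) * w ≤ _
          push_cast
          linarith only [hy2, halφ, hφ])
        (fun l _ => by
          show sn l w + u + 400 * ((k : ℝ) + 2) * φ - ((1 : ℕ) : ℝ) * w ≤ _
          push_cast
          linarith only [hy2, halφ, hφ]) (zw := cR F A (ow (fn n))) (fun _ _ _ _ e => e)
        (fun _ => ()) e1
      have e4 : (fun ω => ((jh F c k ⌊w * J⌋₊ H' (fun l => sn l w + (u + 100 * y)) ω,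
          jv F c k ⌊w * J⌋₊ H' (fun l => sn l w - w + (u + 100 * y)) ω),
            ((), (cR F A (ow (fn n)) ω, F.W ω)))) =
          fun ω => (nrP F c k sn H' w (u + 100 * y) ω, ((), (cR F A (ow (fn n)) ω, F.W ω))) := rfl
      rw [e4] at e3
      linarith only [e3, hδu]
    intro v
    rcases hv2 v with rfl | rfl
    · refine key (k + 0) _ (by omega) (by omega) ?_
      rw [qt0]
      have e1 := hg2 k (by omega)
      have e2 : two k 1 lam0 k = 1 := if_pos rfl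
      show ((γ k + q : ℕ) : ℝ) ≤ (sn k w + two k 1 lam0 k * u) * J + 502 * y * J + 1
      rw [e2]
      push_cast
      linarith only [e1, q1, hyJ]
    · refine key (k + 1) _ (by omega) (by omega) ?_
      rw [qt1]
      have e1 := hg2 (k + 1) le_rfl
      have e2 : two k 1 lam0 (k + 1) = lam0 := if_neg (by omega)
      show ((γ (k + 1) + l₀ : ℕ) : ℝ) ≤ (sn (k + 1) w + two k 1 lam0 (k + 1) * u) * J +
        502 * y * J + 1
      rw [e2]
      push_cast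
      linarith only [e1, n2, hyJ]
  have hZT : ∀ {α β : Type} (a : F.Ω → α) (b : F.Ω → β) (W : ℕ),
      Det (Pool.Agent.H49.Ent.cond F.p A True) (fun ω => (a ω, ((), (b ω, F.W ω)))) (F.T1 W) := by
    intro α β a b W ω ν hω hν e
    exact det_T1 b W ω ν hω hν (Prod.ext_iff.mp (Prod.ext_iff.mp e).2).2
  -- the event
  have hPE : PEvD F c k D' (D' + 1) q X Cg sn w u y φ 1 T w₁ (ow (fn ks)) (ow (fn n)) (ow (fn n))
      (1 - (1 - hx) * ξ) π₀ δ₀ A G₀ H' γ (fun ω (j : Fin k) => 2 ^ Xu / 2 ^ X * gt ω j) Xt 0 TV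
      (tpA F c k ⌊w * J⌋₊ qt γ H') Cj Cx (fun _ => ()) :=
    { deg := hdeg
      cl := fun ω hω l hl => hcls0 ω hω l (by omega)
      γb := fun l hl => ⟨hg1 l (by omega), hg2 l (by omega)⟩
      xX := fun v => by
        rcases hv2 v with rfl | rfl
        · rw [Xt0]
          exact XuX
        · rw [Xt1]
          exact n6
      tL := fun W _ _ => tpA_slam _
      dP := fun W ω _ v => tpA_deg hdeg le_rfl ω v
      tv := fun W hW1 hW2 ω _ v => by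
        rw [hTV]
        exact tpA_eval (hww.trans hW1) hW2 ω v
      sL := fun _ _ _ _ _ => rfl
      grd := by
        rw [← hY]
        exact hGrd
      hj := by
        rw [hCj]
        exact det_cR (hchp ks Wn.kn) hsup
      hx := by
        rw [hCx]
        exact det_cR (hchp n le_rfl) hsup
      sa := by
        rw [CH_eq_zero h0 fun _ _ _ _ _ => rfl]
        positivity
      nl := hnl'
      dj := fun W hW1 hW2 => by
        refine (dj_cod hcl (hww.trans hW1) (hWJ W hW2) hdeg _ (hZT _ _ W) hdj').trans ?_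
        linarith only []
      jt := fun W hW1 hW2 => by
        refine (jt_cod hcl (hww.trans hW1) (hWJ W hW2) hdeg _ (hZT _ _ W) hjt').trans ?_
        linarith only []
      row := fun B h1 h2 => by
        have e1 := hrow' B h1 h2
        rw [← hXu, ← hq, hTV] at e1
        have e2 := row_A (isLaw_cond F.isLaw (lt_of_lt_of_le (mul_pos hπ hA) h2)) Xt0 XuX e1
        rw [hTV]
        refine e2.trans (le_of_eq ?_)
        rw [← hθ, ← hhx]
        ring }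
  rw [hq, hX] at hPE
  obtain ⟨W, mq, m1, m2, m3, m4⟩ := H1 G₀ (H (fb 0)) H' H' H' γ _ Xt 0 TV _ _ _ _ Cj Cx _
    LDh.toLD LDh.hb hPE
  rw [← hX] at m4
  -- the bounds
  have hCY : ((Cg * Y : ℕ) : ℝ) ≤ ι * u * J ∧ ((Cg * Y : ℕ) : ℝ) ≤ ξ / 4 * u * J := by
    push_cast
    have e1 : (Cg : ℝ) * Y ≤ (Cg + 1) * (2000 * (y * J)) :=
      mul_le_mul (by linarith only []) hY2 (Nat.cast_nonneg _) (by linarith only [hCg0])
    have e2 : (Cg : ℝ) * Y ≤ 2000 * ((Cg : ℝ) + 1) * (ψ * u * J) := by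
      have e3 := mul_le_mul_of_nonneg_left (mj hyu) (show 0 ≤ 2000 * ((Cg : ℝ) + 1) by
        linarith only [hCg0])
      linarith only [e1, e3]
    constructor
    · have e3 := mul_le_mul_of_nonneg_right ψ5 huJ.le
      linarith only [e2, e3]
    · have e3 := mul_le_mul_of_nonneg_right ψ6 huJ.le
      linarith only [e2, e3]
  have hξJ : 8 ≤ ξ * (u * J) := by
    have e1 := mul_le_mul_of_nonneg_right ψ6 huJ.le
    have e2 : 8000 * ψ * (u * J) ≤ 8000 * ((Cg : ℝ) + 1) * ψ * (u * J) := by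
      have : 0 ≤ Cg * (ψ * (u * J)) := by positivity
      linarith only [this]
    have e3 := mj hyu
    linarith only [e1, e2, e3, hyJ]
  have hxJ : 8 ≤ hx * ξ * (u * J) := by
    rw [div_le_iff₀ hxξ] at b8
    have e1 : φ * J ≤ u * J := mj (by linarith only [hyφ, y4, hy0])
    have e2 := mul_le_mul_of_nonneg_right e1 hxξ.le
    linarith only [b8, e2]
  have hcx : ∀ ω ν : F.Ω, ptr F J ω = ptr F J ν → Cx ω = Cx ν := by
    intro ω ν e
    rw [hCx]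
    unfold chT chs
    rw [e]
  refine ⟨fun ω hω i hi => ?_, fun ω ν hω hν hpt i hi => ?_, W, fun s i =>
    Polynomial.C (2 ^ X / 2 ^ Xu) * (if h : i < k then mq s ⟨i, h⟩ else 0), hww.trans m1, m2,
    fun s i => ?_, ?_⟩
  · rw [← hγ]
    refine (hGb ω hω k le_rfl (by omega) i hi).trans ?_
    rw [← Real.rpow_natCast]
    exact Real.rpow_le_rpow_of_exponent_le one_le_two hCY.1
  · rw [← hγ]
    have ht : F.t ω = F.t ν := by
      have hT : F.T ω = F.T ν := (Prod.ext_iff.1 (Prod.ext_iff.1 hpt).2).1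
      unfold Fam.t
      rw [hT]
    have e1 := ((hGg ω ν hω hν ht (fun j hj => hcells ω ν hω hν hpt j hj)).2 (by
      have := hcx ω ν hpt
      rwa [hCx] at this)).1 i hi
    refine e1.trans ?_
    rw [div_le_iff₀ (by positivity), ← Real.rpow_natCast, ← Real.rpow_natCast,
      ← Real.rpow_add two_pos]
    refine Real.rpow_le_rpow_of_exponent_le one_le_two ?_
    have e2 : hx * ξ * (u * J) ≤ 1 * ξ * (u * J) :=
      mul_le_mul_of_nonneg_right (mul_le_mul_of_nonneg_right hx1.le ξ0.le) huJ.le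
    have e3 := hCY.2
    linarith only [e2, e3, Xu2, hξJ]
  · refine (Polynomial.natDegree_C_mul_le _ _).trans ?_
    split_ifs with h
    · exact m3 s ⟨i, h⟩
    · rw [Polynomial.natDegree_zero]
      exact Nat.zero_le _
  · refine (Pool.BFL.Pb_mono hcl fun ω _ hω => ?_).trans m4
    obtain ⟨i, hi, h1⟩ := hω
    refine ⟨⟨i, hi⟩, ?_⟩
    rw [← hγ] at h1
    have e1 : Polynomial.eval (rt F W ω) (Polynomial.C (2 ^ X / 2 ^ Xu) *
        (if h : i < k then mq (slam F W ω) ⟨i, h⟩ else 0)) =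
        2 ^ X / 2 ^ Xu * (mq (slam F W ω) ⟨i, hi⟩).eval (rt F W ω) := by
      rw [dif_pos hi, Polynomial.eval_mul, Polynomial.eval_C]
    have e2 : gt ω i = ggT F c k Gc GN (fb 0) (fn n) γ k ω i := by rw [hgt']
    rw [← e2] at h1
    have h1' : (2 : ℝ) ^ (-(hx * ξ / 8 * u * J)) < |gt ω i - 2 ^ X / 2 ^ Xu *
        (mq (slam F W ω) ⟨i, hi⟩).eval (rt F W ω)| := by
      rw [← e1]
      exact h1
    have hq0 : (0 : ℝ) < 2 ^ Xu / 2 ^ X := by positivity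
    have e3 : |2 ^ Xu / 2 ^ X * gt ω i - (mq (slam F W ω) ⟨i, hi⟩).eval (rt F W ω)| =
        2 ^ Xu / 2 ^ X * |gt ω i - 2 ^ X / 2 ^ Xu *
          (mq (slam F W ω) ⟨i, hi⟩).eval (rt F W ω)| := by
      rw [← abs_of_pos hq0, ← abs_mul, abs_of_pos hq0]
      congr 1
      field_simp
    show (2 : ℝ) ^ (-((1 - ξ + hx * ξ / 2) * (X : ℝ))) <
      |2 ^ Xu / 2 ^ X * gt ω i - (mq (slam F W ω) ⟨i, hi⟩).eval (rt F W ω)|
    rw [e3]
    refine lt_of_le_of_lt ?_ (mul_lt_mul_of_pos_left h1' hq0)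
    rw [← Real.rpow_natCast, ← Real.rpow_natCast, ← Real.rpow_sub two_pos,
      ← Real.rpow_add two_pos]
    refine Real.rpow_le_rpow_of_exponent_le one_le_two ?_
    have e4 : (ξ - hx * ξ / 2) * (X : ℝ) ≤ (ξ - hx * ξ / 2) * (1 * u * J) :=
      mul_le_mul_of_nonneg_left X1 (by linarith only [hxξ1, hxξ])
    linarith only [e4, Xu2, hxJ]

end Pool.VA83
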