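import Pool.Agent.H83.VA.Evc
import Pool.Agent.H83.VA.T2
import Pool.Agent.H23.D2.Adc
import Pool.Agent.H19.V0B.Ex

/-!
# The class theorem for a steep place and a flatter last place: cells, numbers, windows
-/

set_option autoImplicit false

namespace Pool.VA83

open Finset Real MvPolynomial
open Pool.Agent.H49.Ent Pool.Agent.H32.Dense
open Pool.STK hiding pr2
open Pool.KA Pool.KSAT Pool.K2S Pool.PB Pool.S6C
open Pool.GEN Pool.CHT Pool.CHX Pool.ISO Pool.LA91 Pool.AVG71 Pool.AVG5 Pool.D2F2 Pool.AVG57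
open Pool.RCD Pool.AVG96 Pool.OWN68 Pool.V0F Pool.V0Q Pool.V0T Pool.V0S Pool.T4C72 Pool.XR71
open Pool.VP83
open Pool.PB.Trl (rt rt_mem t_rt)
open Pool.D2R (WinB gnh hgt hyb chs winb_cell)

/-- **Two samples of one cell**: the heights of the slope-one places. -/
theorem cel_A (m D k : ℕ) : ∃ Cc : ℕ, 1 ≤ Cc ∧
    ∀ {S : PCl m} {c : ℕ → Fin m} {sn sp : ℕ → ℝ → ℝ} {Gs : Set ℝ}
    {al be h b o w u Λ φ e s₀ y : ℝ} {lam : ℝ → ℝ} {Dr N M : ℕ} {C₀ a Eb ηm : ℝ}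
    {ow η σ : ℕ → ℝ} {lv bb : ℕ → ℕ → ℝ} {fb fn : ℕ → ℕ} {nb n ks : ℕ}
    (_ : XBox S c k sn sp Gs al be h b o w u Λ φ e lam)
    (_ : WnT k 1 sn Gs s₀ b w u Λ φ N C₀ Eb ηm ow lv fb fn nb n ks) (_ : 10 ≤ Λ)
    (_ : φ ≤ y) (_ : 4000 * y ≤ u) (_ : (Cc : ℝ) * (2 * φ) ≤ u)
    {J : ℕ} {F : Fam m J} {A : F.Ω → Prop} {κ : ℝ} {z : ℕ → ℕ → ℕ} {g₀ : ℕ → ℕ → ℕ}
    {Gc : ℕ → PtT F → ℕ → MvPolynomial (Option (Fin m)) ℝ}
    {H : ℕ → LnT F → ℕ → MvPolynomial (Option (Fin m)) ℝ}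
    (GN : PtT F → ℕ → MvPolynomial (Option (Fin m)) ℝ)
    (_ : WinB F c (k + 1) D Dr N M C₀ a Eb ηm ow η σ lv bb κ z A g₀ Gc H)
    (_ : RadT nb n M J u ow fb fn z)
    (_ : 10 ≤ φ * J) (ω ν : F.Ω), A ω → A ν → ptr F J ω = ptr F J ν → ∀ l < k,
    |hgt F c (frT Gc GN (fb 0) k) ω l - hgt F c (frT Gc GN (fb 0) k) ν l| ≤
      2 ^ 2 / 2 ^ (g₀ (fn 0) l + ⌊(u + 500 * y) * J⌋₊) := by
  obtain ⟨Cc, hCc, Hc⟩ := winb_cell m D (k + 1)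
  refine ⟨Cc, hCc, ?_⟩
  intro S c sn sp Gs al be h b o w u Λ φ e s₀ y lam Dr N M C₀ a Eb ηm ow η σ lv bb fb fn nb n ks
    Bx Wn hΛ hφy hyu hCu J F A κ z g₀ Gc H GN W Rd big ω ν hω hν hpt l hl
  have hJ : (0 : ℝ) ≤ J := Nat.cast_nonneg J
  have hu := Bx.u0
  have hφ := Bx.lad.φ0
  have hbw := Bx.bw
  have hwo := Bx.wo
  have hkb := Wn.fbN 0 (Nat.zero_le _)
  have hkw := Wn.fnN 0 (Nat.zero_le _)
  have hlv := Wn.lv
  have hob := Wn.ob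
  have how := Wn.ow0
  have hLu : 10 * u ≤ Λ * u := mul_le_mul_of_nonneg_right hΛ hu.le
  have b1 : b ≤ w := by linarith
  have mj : ∀ {a a' : ℝ}, a ≤ a' → a * J ≤ a' * J := fun h => mul_le_mul_of_nonneg_right h hJ
  have hηm0 : 0 ≤ ηm := (W.hη _ hkb).1.trans (W.hη _ hkb).2
  have hηφ : ηm ≤ φ := (le_mul_of_one_le_left hηm0 W.C1).trans Wn.C0
  have hy0 : 0 < y := by linarith
  obtain ⟨Y, hY⟩ : ∃ Y : ℕ, Y = ⌈φ * (J : ℝ)⌉₊ := ⟨_, rfl⟩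
  have hY1 : φ * J ≤ Y := by
    rw [hY]
    exact Nat.le_ceil _
  have hY2 : (Y : ℝ) ≤ φ * J + 1 := by
    rw [hY]
    exact (Nat.ceil_lt_add_one (by linarith)).le
  have hCY : (Cc : ℝ) * Y ≤ u * J := by
    have e1 : (Cc : ℝ) * Y ≤ Cc * (2 * φ * J) :=
      mul_le_mul_of_nonneg_left (by linarith) (Nat.cast_nonneg _)
    have e2 := mj hCu
    linarith
  have hC0 : C₀ * (ηm * J) ≤ Y := by
    have e1 := mj Wn.C0
    have e2 : C₀ * (ηm * J) = C₀ * ηm * J := by ring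
    rw [e2]
    linarith
  have hY3 : 1 ≤ Y := by
    have : (1 : ℝ) ≤ Y := by linarith
    exact_mod_cast this
  have e2 := Nat.floor_le (show 0 ≤ (u + 500 * y) * (J : ℝ) from mul_nonneg (by linarith) hJ)
  have huJ : 0 ≤ u * (J : ℝ) := mul_nonneg hu.le hJ
  have hyuJ : 4000 * y * J ≤ u * J := mj hyu
  have hφuJ : 4000 * φ * J ≤ u * J := mj (by linarith)
  have hφ1 : 1 ≤ φ * J := by linarith
  have hfr : ∀ τ, hgt F c (frT Gc GN (fb 0) k) τ l = hgt F c (Gc (fb 0)) τ l := fun τ => by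
    unfold Pool.D2R.hgt frT
    rw [if_pos hl]
  rw [hfr, hfr]
  obtain ⟨q, hq⟩ : ∃ q : ℕ, q = ⌈(w - b + 4 * φ) * (J : ℝ)⌉₊ + (⌊(u + 500 * y) * J⌋₊ + 2) :=
    ⟨_, rfl⟩
  have hq1 : (w - b + 4 * φ) * J + ((⌊(u + 500 * y) * J⌋₊ + 2 : ℕ) : ℝ) ≤ q := by
    rw [hq]
    push_cast
    have := Nat.le_ceil ((w - b + 4 * φ) * (J : ℝ))
    linarith
  have hq2 : (q : ℝ) ≤ (w - b + 4 * φ) * J + 3 + 2 * (u * J) := by
    rw [hq]
    push_cast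
    have e1 := (Nat.ceil_lt_add_one (show 0 ≤ (w - b + 4 * φ) * (J : ℝ) from
      mul_nonneg (by linarith) hJ)).le
    linarith
  obtain ⟨jq, hjq, jT, hjT, hz1, hz2⟩ := Rd.2.2
  have hfl : ∀ l < k, |sn l w - sn l b - (w - b)| ≤ 2 * φ := by
    intro l hl
    have e1 := abs_le.1 (Bx.lad.fl l hl b Bx.lad.bG le_rfl (by linarith))
    have e2 := abs_le.1 (Bx.lad.fl l hl w Bx.wG b1 (by linarith))
    rw [abs_le]
    constructor <;> linarith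
  have hl' : ∀ l ≤ k + 1, sn l b + (w - b) ≤ sn l w + 2 * φ := by
    intro l hl
    rcases Nat.lt_or_ge l k with h | h
    · have e1 := abs_le.1 (hfl l h)
      linarith
    · have e1 := Bx.lad.st l h hl b Bx.lad.bG w Bx.wG le_rfl b1 (by linarith)
      linarith
  have h7 := Hc W (k₀ := fb 0) (jq := jq) (jT := jT) (q := q) (Y := Y) Bx.lad.inj hkb hjq hjT hz2
    hC0 hY3 (fun l hl => by
      rw [hlv _ hkb l hl, hob]
      have e1 := hl' l hl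
      have e2 := Wn.Eb l hl
      have e3 := mj (show Eb + sn l b + (w - b) + 10 * u ≤ 1 + 2 * φ by linarith)
      linarith) ω ν hω hν hpt l (by omega)
  refine h7.trans (div_le_div_of_nonneg_left (by positivity) (by positivity)
    (pow_le_pow_right₀ one_le_two ?_))
  obtain ⟨-, -, g1, -⟩ := W.g_num hkb (show l ≤ k + 1 by omega)
  obtain ⟨-, -, -, g2⟩ := W.g_num hkw (show l ≤ k + 1 by omega)
  rw [hlv _ hkb l (by omega), hob] at g1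
  rw [hlv _ hkw l (by omega), how] at g2
  have e1 := abs_le.1 (hfl l hl)
  have e2 := mj hηφ
  have e3 := mj (show sn l w + φ ≤ sn l b + (w - b + 4 * φ) by linarith)
  have e4 : ((g₀ (fn 0) l + ⌊(u + 500 * y) * J⌋₊ : ℕ) : ℝ) ≤ ((g₀ (fb 0) l + q : ℕ) : ℝ) := by
    push_cast at hq1 ⊢
    linarith
  exact_mod_cast e4

/-- **The constants.** -/
theorem cst_A {p₀ p₁ p₂ μ ι ξ δ s₀ : ℝ} (D' Cg Cc : ℕ) (h0 : 0 < p₀) (h1 : 0 < p₁) (h2 : 0 < p₂)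
    (hμ : 0 < μ) (hι : 0 < ι) (hξ : 0 < ξ) (hδ : 0 < δ) (hs : 0 < s₀) :
    ∃ ψ : ℝ, 0 < ψ ∧ ψ ≤ p₀ ∧ ψ ≤ p₁ ∧ ψ ≤ p₂ ∧ 4000 * ψ ≤ 1 ∧ 1000 * ψ ≤ μ ∧
      2000 * ((Cg : ℝ) + 1) * ψ ≤ ι ∧ 8000 * ((Cg : ℝ) + 1) * ψ ≤ ξ ∧
      16000 * ((D' : ℝ) + 3) * ψ ≤ δ ∧ 4 * s₀ * ψ ≤ 1 ∧ (Cc : ℝ) * (2 * ψ) ≤ 1 := by
  obtain ⟨ψ, hψ⟩ : ∃ ψ : ℝ, ψ = min (min (min p₀ p₁) (min p₂ (1 / 4000))) (min (min (μ / 1000)
    (ι / (2000 * ((Cg : ℝ) + 1)))) (min (min (ξ / (8000 * ((Cg : ℝ) + 1)))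
      (δ / (16000 * ((D' : ℝ) + 3)))) (min (1 / (4 * s₀)) (1 / (2 * ((Cc : ℝ) + 1)))))) := ⟨_, rfl⟩
  have a0 : ψ ≤ p₀ := by
    rw [hψ]
    exact (min_le_left _ _).trans ((min_le_left _ _).trans (min_le_left _ _))
  have a1 : ψ ≤ p₁ := by
    rw [hψ]
    exact (min_le_left _ _).trans ((min_le_left _ _).trans (min_le_right _ _))
  have a2 : ψ ≤ p₂ := by
    rw [hψ]
    exact (min_le_left _ _).trans ((min_le_right _ _).trans (min_le_left _ _))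
  have a3 : ψ ≤ 1 / 4000 := by
    rw [hψ]
    exact (min_le_left _ _).trans ((min_le_right _ _).trans (min_le_right _ _))
  have a4 : ψ ≤ μ / 1000 := by
    rw [hψ]
    exact (min_le_right _ _).trans ((min_le_left _ _).trans (min_le_left _ _))
  have a5 : ψ ≤ ι / (2000 * ((Cg : ℝ) + 1)) := by
    rw [hψ]
    exact (min_le_right _ _).trans ((min_le_left _ _).trans (min_le_right _ _))
  have a6 : ψ ≤ ξ / (8000 * ((Cg : ℝ) + 1)) := by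
    rw [hψ]
    exact (min_le_right _ _).trans ((min_le_right _ _).trans ((min_le_left _ _).trans
      (min_le_left _ _)))
  have a7 : ψ ≤ δ / (16000 * ((D' : ℝ) + 3)) := by
    rw [hψ]
    exact (min_le_right _ _).trans ((min_le_right _ _).trans ((min_le_left _ _).trans
      (min_le_right _ _)))
  have a8 : ψ ≤ 1 / (4 * s₀) := by
    rw [hψ]
    exact (min_le_right _ _).trans ((min_le_right _ _).trans ((min_le_right _ _).trans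
      (min_le_left _ _)))
  have a9 : ψ ≤ 1 / (2 * ((Cc : ℝ) + 1)) := by
    rw [hψ]
    exact (min_le_right _ _).trans ((min_le_right _ _).trans ((min_le_right _ _).trans
      (min_le_right _ _)))
  have p : 0 < ψ := by
    rw [hψ]
    positivity
  rw [le_div_iff₀ (by positivity)] at a5 a6 a7 a8 a9
  refine ⟨ψ, p, a0, a1, a2, by linarith, by linarith, by linarith, by linarith, by linarith,
    by linarith, ?_⟩
  have : (Cc : ℝ) * (2 * ψ) ≤ (Cc + 1) * (2 * ψ) :=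
    mul_le_mul_of_nonneg_right (by linarith) (by positivity)
  linarith

/-- **The numbers of one event.** -/
theorem num_A {J : ℕ} {u y φ ξ θ μ lam0 : ℝ} (hu : 0 < u) (big : 10 ≤ φ * J) (hφy : φ ≤ y)
    (_ : 4000 * y ≤ u) (hμy : 1000 * y ≤ μ * u) (hμ : θ * (1 + ξ) + μ ≤ 1) (hlam : 0 < lam0)
    (hlam' : lam0 ≤ θ) (hξ0 : 0 < ξ) : ∃ l₀ x₁ : ℕ, lam0 * u * J ≤ l₀ + 1 ∧
      (l₀ : ℝ) ≤ lam0 * u * J ∧ l₀ + x₁ ≤ ⌊(u + 500 * y) * (J : ℝ)⌋₊ ∧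
      (θ * (1 + ξ) * u + 501 * y) * J ≤ ((l₀ + x₁ : ℕ) : ℝ) ∧
      ((l₀ + x₁ : ℕ) : ℝ) ≤ (θ * (1 + ξ) * u + 502 * y) * J ∧ x₁ ≤ ⌊1 * u * (J : ℝ)⌋₊ := by
  have hJ : (0 : ℝ) ≤ J := Nat.cast_nonneg J
  have mj : ∀ {a a' : ℝ}, a ≤ a' → a * J ≤ a' * J := fun h => mul_le_mul_of_nonneg_right h hJ
  have hyJ : 10 ≤ y * J := by
    have := mj hφy
    linarith
  have huJ : 0 ≤ u * J := mul_nonneg hu.le hJ
  have hθ : 0 < θ := hlam.trans_le hlam'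
  have hy0 : 0 < y := by
    by_contra h
    have : y * J ≤ 0 := mul_nonpos_of_nonpos_of_nonneg (not_lt.1 h) hJ
    linarith
  have hθξ : 0 < θ * (1 + ξ) := by positivity
  have h1 : lam0 * u * J ≤ θ * (1 + ξ) * u * J := by
    refine mj (mul_le_mul_of_nonneg_right ?_ hu.le)
    have : θ * 1 ≤ θ * (1 + ξ) := mul_le_mul_of_nonneg_left (by linarith) hθ.le
    linarith
  have h2 : θ * (1 + ξ) * u * J + μ * u * J ≤ u * J := by
    have := mj (mul_le_mul_of_nonneg_right hμ hu.le)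
    linarith
  have h3 : 1000 * (y * J) ≤ μ * u * J := by
    have := mj hμy
    linarith
  obtain ⟨l₀, hl₀⟩ : ∃ l₀ : ℕ, l₀ = ⌊lam0 * u * (J : ℝ)⌋₊ := ⟨_, rfl⟩
  have f1 : lam0 * u * J ≤ l₀ + 1 := by
    rw [hl₀]
    exact (Nat.lt_floor_add_one _).le
  have f2 : (l₀ : ℝ) ≤ lam0 * u * J := by
    rw [hl₀]
    exact Nat.floor_le (by positivity)
  obtain ⟨Z, hZ⟩ : ∃ Z : ℕ, Z = ⌈(θ * (1 + ξ) * u + 501 * y) * (J : ℝ)⌉₊ := ⟨_, rfl⟩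
  have g1 : (θ * (1 + ξ) * u + 501 * y) * J ≤ Z := by
    rw [hZ]
    exact Nat.le_ceil _
  have g2 : (Z : ℝ) ≤ (θ * (1 + ξ) * u + 501 * y) * J + 1 := by
    rw [hZ]
    exact (Nat.ceil_lt_add_one (by positivity)).le
  have e1 : (θ * (1 + ξ) * u + 501 * y) * J = θ * (1 + ξ) * u * J + 501 * (y * J) := by ring
  have e2 : (θ * (1 + ξ) * u + 502 * y) * J = θ * (1 + ξ) * u * J + 502 * (y * J) := by ring
  rw [e1] at g1 g2
  have hle : l₀ ≤ Z := by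
    have : (l₀ : ℝ) ≤ Z := by linarith
    exact_mod_cast this
  refine ⟨l₀, Z - l₀, f1, f2, ?_, ?_, ?_, ?_⟩
  · rw [Nat.add_sub_cancel' hle]
    refine Nat.le_floor ?_
    have : (u + 500 * y) * J = u * J + 500 * (y * J) := by ring
    rw [this]
    linarith
  · rw [Nat.add_sub_cancel' hle, e1]
    exact g1
  · rw [Nat.add_sub_cancel' hle, e2]
    linarith
  · refine (Nat.sub_le _ _).trans (Nat.le_floor ?_)
    rw [one_mul]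
    linarith

/-- **The windows.** -/
theorem pw_A {m : ℕ} {S : PCl m} {c : ℕ → Fin m} {k : ℕ} {sn sp : ℕ → ℝ → ℝ} {Gs : Set ℝ}
    {al be h b o w u Λ Λ₁ φ e s₀ y T p₀ : ℝ} {lam : ℝ → ℝ} {N : ℕ} {C₀ Eb ηm : ℝ} {ow : ℕ → ℝ}
    {lv : ℕ → ℕ → ℝ} {fb fn : ℕ → ℕ} {nb n ks : ℕ}
    (Bx : XBox S c k sn sp Gs al be h b o w u Λ φ e lam)
    (Wn : WnT k 1 sn Gs s₀ b w u Λ φ N C₀ Eb ηm ow lv fb fn nb n ks)
    (hΛ : Λ₁ + 4 * T + 2 * k + 20 ≤ Λ) (hΛ1 : 1 ≤ Λ₁) (hT : 1 ≤ T) (hyφ : ((k : ℝ) + 3) * φ ≤ y)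
    (hφu : 4000 * φ ≤ u) (hs₀ : 0 < s₀) (hφs : 4 * s₀ * φ ≤ u) (he : e ≤ p₀) :
    ∃ (w₁ : ℚ) (x' x'' : ℝ), PW k sn Gs b o φ w u y T Λ₁ w₁ (ow (fn ks)) (ow (fn n)) (ow (fn n))
      x' x'' ∧ ∀ (P : Fin k → ℚ) (xe : ℝ), xe = x' ∨ xe = x'' →
      (∀ i : Fin k, sn i w - w + u ≤ P i ∧ (P i : ℝ) ≤ sn i w - w + Λ₁ * u) →
      (∀ l i : Fin k, l < i → (P i : ℝ) - (sn i w - w) + u / 2 ≤ P l - (sn l w - w)) →
      FrI S c k sp b (fun i => (P i : ℝ)) w₁ xe (p₀ * u) := by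
  have hu := Bx.u0
  have hφ := Bx.lad.φ0
  have hbw := Bx.bw
  have hwo := Bx.wo
  have hk : (0 : ℝ) ≤ k := Nat.cast_nonneg k
  have hΛu : Λ₁ * u + 4 * (T * u) + 2 * k * u + 20 * u ≤ Λ * u := by
    have := mul_le_mul_of_nonneg_right hΛ hu.le
    linarith
  have hTu : u ≤ T * u := by
    have := mul_le_mul_of_nonneg_right hT hu.le
    linarith
  have h1u : u ≤ Λ₁ * u := by
    have := mul_le_mul_of_nonneg_right hΛ1 hu.le
    linarith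
  have hku : 0 ≤ 2 * k * u := by positivity
  obtain ⟨w₁, a1, a2⟩ := exists_rat_btwn (show w < w + φ by linarith)
  obtain ⟨x', b1, b2⟩ := Bx.lad.gap (w + T * u) (by linarith) (by linarith)
  obtain ⟨x'', d1, d2⟩ := Bx.lad.gap (w + 3 * T * u) (by linarith) (by linarith)
  have b3 := abs_le.1 b2
  have d3 := abs_le.1 d2
  have hoks := abs_le.1 Wn.oks
  have hon := abs_le.1 Wn.on
  have hus : 4 * φ ≤ u / s₀ := by
    rw [le_div_iff₀ hs₀]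
    linarith
  refine ⟨w₁, x', x'', ⟨hu, hyφ, Bx.wG, Wn.nG ks Wn.kn, Wn.nG n le_rfl, Wn.nG n le_rfl, b1, d1,
    a1.le, a2.le, by linarith, Wn.okn, le_rfl, Wn.on, b2, d2, by linarith, by linarith, ?_, ?_,
    fun l hl => ?_⟩, ?_⟩
  · have := Bx.o1
    linarith
  · have := Bx.b0
    linarith
  · have := Bx.room l (by omega)
    constructor <;> linarith
  · intro P xe hxe h1 h2
    have h3 : xe ∈ Gs ∧ (w₁ : ℝ) ≤ xe ∧ xe ≤ w + Λ * u := by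
      rcases hxe with rfl | rfl
      · exact ⟨b1, by linarith, by linarith⟩
      · exact ⟨d1, by linarith, by linarith⟩
    exact Pool.V0B19.fri_mono (Bx.free P w₁ xe a1.le h3.1 h3.2.1 h3.2.2 (fun i => ⟨(h1 i).1,
      (h1 i).2.trans (by linarith)⟩) h2) (mul_le_mul_of_nonneg_right he hu.le)

end Pool.VA83
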