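import Pool.Agent.H83.VA.Gra
import Pool.Agent.H44.V0P.Sm
import Pool.Agent.H48.V0T.Evt

/-!
# The class theorem for a steep place and a flatter last place: event lemmas

`cod_base`: codes over positions and velocities of the slope-one places. `row_A`: the row. `grtc_A`:
the gradients in the form of the class theorem for several targets.
-/

set_option autoImplicit false

namespace Pool.VA83

open Finset Real MvPolynomial
open Pool.Agent.H49.Ent Pool.Agent.H32.Dense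
open Pool.STK hiding pr2
open Pool.KA Pool.KSAT Pool.K2S Pool.PB Pool.S6C
open Pool.GEN Pool.CHT Pool.CHX Pool.ISO Pool.LA91 Pool.AVG71 Pool.AVG5 Pool.D2F2 Pool.AVG57
open Pool.RCD Pool.AVG96 Pool.OWN68 Pool.V0F Pool.V0Q Pool.V0T Pool.V0S Pool.VP83 Pool.XR71
open Pool.PB.Trl (rt rt_mem t_rt)
open Pool.D2R (hgt WinB)
open Pool.FS21 (oth)

section

variable {m J : ℕ} {F : Fam m J} {c : ℕ → Fin m} {k w : ℕ}
  {H : LnT F → ℕ → MvPolynomial (Option (Fin m)) ℝ} {p : F.Ω → ℝ}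

/-- **The codes over positions and velocities** of the slope-one places. -/
theorem cod_base (hp : IsLaw p) {D j₀ l N N' : ℕ} {d e : ℝ} (hd : (N' : ℝ) - N ≤ d) (hd0 : 0 ≤ d)
    {n : ℕ → ℕ → ℝ} {m0 m1 : ℕ → ℝ} (h0 : ∀ l < k, n l 0 ≤ m0 l) (h1 : ∀ l < k, n l 1 ≤ m1 l)
    {ζ ζ' σ : Type} {zw : F.Ω → ζ} {zw' : F.Ω → ζ'} (hz : Det p zw zw') (sd : F.Ω → σ)
    (h : CH p (Pool.AVG57.cod F w (fun s => H s l) (c l) N j₀ D)
      (fun ω => (jet2 F c w H 0 k n ω, (zw' ω, F.W ω))) ≤ e) :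
    CH p (Pool.AVG57.cod F w (fun s => H s l) (c l) N' j₀ D)
      (fun ω => ((jh F c k w H m0 ω, jv F c k w H m1 ω), (sd ω, (zw ω, F.W ω)))) ≤
      e + ((D : ℝ) + 1) * (d * Real.log 2 + Real.log 5) + 2 * k * Real.log 5 := by
  obtain ⟨n', hn'⟩ : ∃ n' : ℕ → ℕ → ℝ, n' = fun l j' => if j' = 0 then m0 l else m1 l := ⟨_, rfl⟩
  have e0 : (fun l => n' l 0) = m0 := by
    rw [hn']
    rfl
  have e1 : (fun l => n' l 1) = m1 := by
    rw [hn']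
    rfl
  have s1 := code_evp hp (F := F) (c := c) (w := w) (H := H) (k := k) (D := D) (j₀ := j₀) (l := l)
    (N := N) (N' := N') hd hd0 (n := n) (n' := n') (fun l hl => by
      rw [congrFun e0 l]
      exact h0 l hl) (fun l hl => by
      rw [congrFun e1 l]
      exact h1 l hl) hz
  have s2 : CH p (Pool.AVG57.cod F w (fun s => H s l) (c l) N' j₀ D)
      (fun ω => ((jh F c k w H m0 ω, jv F c k w H m1 ω), (sd ω, (zw ω, F.W ω)))) ≤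
      CH p (Pool.AVG57.cod F w (fun s => H s l) (c l) N' j₀ D)
      (fun ω => (jetm F c (fun i : Fin k => (i : ℕ)) w H (fun l => n' l) ω, (zw ω, F.W ω))) := by
    refine CH_mono_cond hp.nonneg fun ω ν hω hν e => ?_
    obtain ⟨e2, e3⟩ := Prod.ext_iff.mp e
    refine Prod.ext ?_ (Prod.ext_iff.mp e3).2
    refine jhv_jetm (p := p) n' ω ν hω hν ?_
    show (jh F c k w H (fun l => n' l 0) ω, jv F c k w H (fun l => n' l 1) ω) =
      (jh F c k w H (fun l => n' l 0) ν, jv F c k w H (fun l => n' l 1) ν)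
    rw [e0, e1]
    exact e2
  linarith

/-- Nested floors. -/
theorem fl_nest (x : ℝ) {a b : ℕ} (h : a ≤ b) {y : ℝ}
    (e : ⌊(2 : ℝ) ^ (b : ℝ) * x⌋ = ⌊(2 : ℝ) ^ (b : ℝ) * y⌋) :
    ⌊(2 : ℝ) ^ (a : ℝ) * x⌋ = ⌊(2 : ℝ) ^ (a : ℝ) * y⌋ := by
  have key : ∀ x : ℝ, ⌊(2 : ℝ) ^ (a : ℝ) * x⌋ = ⌊(2 : ℝ) ^ (b : ℝ) * x⌋ / ((2 ^ (b - a) : ℕ) : ℤ) := by
    intro x
    rw [← Int.floor_div_natCast]
    congr 1
    rw [Real.rpow_natCast, Real.rpow_natCast]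
    push_cast
    rw [eq_div_iff (by positivity), mul_right_comm, ← pow_add, Nat.add_sub_cancel' h]
  rw [key, key, e]

theorem vv_nest {a b : ℕ → ℕ} (h : ∀ l < k, a l ≤ b l) :
    Det p (Vv F c k w H fun l => ((b l : ℕ) : ℝ)) (Vv F c k w H fun l => ((a l : ℕ) : ℝ)) := by
  intro ω ν _ _ e
  funext l
  have e1 := congrFun e l
  unfold Vv at e1 ⊢
  exact fl_nest _ (h l l.2) e1

/-- **The row.** -/
theorem row_A (hp : IsLaw p) {ζ : Type} {zw : F.Ω → ζ} {qt Xt : Fin 2 → ℕ} {γ : ℕ → ℕ}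
    {q X Xu : ℕ} (hXu : Xt 0 = Xu) (hX : Xu ≤ X) {e : ℝ}
    (h : CH p (fun ω => ⌊(2 : ℝ) ^ Xu * TVA F c k w qt γ H ω 0⌋)
      (fun ω => (⌊TVA F c k w qt γ H ω 0⌋, (Vv F c k w H (fun l => ((γ l + q + Xu : ℕ) : ℝ)) ω,
        (⌊(2 : ℝ) ^ Xt 1 * TVA F c k w qt γ H ω 1⌋, (zw ω, F.W ω))))) ≤ e) :
    CH p (fun ω => ⌊(2 : ℝ) ^ Xt 0 * TVA F c k w qt γ H ω 0⌋)
      (fun ω => ((⌊TVA F c k w qt γ H ω 0⌋,
        oth 0 (fun v : Fin 2 => ⌊(2 : ℝ) ^ Xt v * TVA F c k w qt γ H ω v⌋)),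
        (Vv F c k w H (fun l => ((γ l + q + X : ℕ) : ℝ)) ω, ((), (zw ω, F.W ω))))) ≤ e := by
  rw [hXu]
  refine (CH_mono_cond hp.nonneg fun ω ν hω hν e => ?_).trans h
  simp only [Prod.mk.injEq] at e ⊢
  obtain ⟨⟨e1, e2⟩, e3, -, e4, e5⟩ := e
  refine ⟨e1, vv_nest (p := p) (fun l _ => by omega) ω ν hω hν e3, ?_, e4, e5⟩
  have e6 := congrFun e2 1
  unfold Pool.FS21.oth at e6
  simpa using e6

/-- **The gradients** in the form of the class theorem for several targets. -/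
theorem grtc_A {k q X Xu : ℕ} {γ : ℕ → ℕ} {U : ℝ} {B : F.Ω → Prop}
    {G₀ : PtT F → ℕ → MvPolynomial (Option (Fin m)) ℝ} {qt Xt : Fin 2 → ℕ} {gt : F.Ω → ℕ → ℝ}
    {χ₁ χ₂ : Type} {Cj : F.Ω → χ₁} {Cx : F.Ω → χ₂} (hw : w ≤ J) (hU : 0 ≤ U) (h0 : qt 0 = q)
    (h1 : qt 1 + Xt 1 ≤ q) (hX0 : Xt 0 = Xu) (hX : Xu ≤ X)
    (hcl : ∀ ω, B ω → ∀ v : Fin 2, G₀ (ptr F J ω) (k + v) = H (slam F w ω) (k + v))
    (hb : ∀ ω, B ω → ∀ j < k, |gt ω j| ≤ U)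
    (hg : ∀ ω ν, B ω → B ν → F.t ω = F.t ν →
      (∀ j < k, |hgt F c G₀ ω j - hgt F c G₀ ν j| ≤ 2 ^ 2 / 2 ^ (γ j + q)) →
      (Cj ω = Cj ν → ∀ j < k, |gt ω j - gt ν j| ≤ U / 2 ^ Xu) ∧
      (Cx ω = Cx ν → (∀ j < k, |gt ω j - gt ν j| ≤ U / 2 ^ Xu) ∧
        |2 ^ (γ k + q) * (hgt F c G₀ ω k - hgt F c G₀ ν k) -
          ∑ j ∈ range k, gt ω j * (2 ^ (γ j + q) * (hgt F c G₀ ω j - hgt F c G₀ ν j))| ≤
            U / 2 ^ Xu ∧
        |2 ^ (γ (k + 1) + q) * (hgt F c G₀ ω (k + 1) - hgt F c G₀ ν (k + 1))| ≤ U)) :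
    GrTC F c k q X γ U B G₀ Xt 0 (fun ω (j : Fin k) => 2 ^ Xu / 2 ^ X * gt ω j)
      (TVA F c k w qt γ H) (fun _ => ()) Cj Cx := by
  have hq0 : (0 : ℝ) < 2 ^ Xu / 2 ^ X := by positivity
  have hq1 : (2 : ℝ) ^ Xu / 2 ^ X ≤ 1 := by
    rw [div_le_one (by positivity)]
    exact pow_le_pow_right₀ one_le_two hX
  have hqU : (2 : ℝ) ^ Xu / 2 ^ X * (U / 2 ^ Xu) = U / 2 ^ X := by
    field_simp
  have hdf : ∀ ω ν (j : Fin k), |gt ω j - gt ν j| ≤ U / 2 ^ Xu →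
      |2 ^ Xu / 2 ^ X * gt ω j - 2 ^ Xu / 2 ^ X * gt ν j| ≤ U / 2 ^ X := by
    intro ω ν j h
    rw [← mul_sub, abs_mul, abs_of_pos hq0, ← hqU]
    exact mul_le_mul_of_nonneg_left h hq0.le
  refine ⟨hU, fun ω hω j => ?_, fun ω ν hω hν ht _ hC hn j => ?_,
    fun ω ν hω hν ht _ hC hn j => ?_, fun ω ν hω hν ht _ hC hn v => ?_⟩
  · rw [abs_mul, abs_of_pos hq0]
    exact (mul_le_mul hq1 (hb ω hω j j.2) (abs_nonneg _) zero_le_one).trans (one_mul U).le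
  · exact hdf ω ν j ((hg ω ν hω hν ht hn).1 hC j j.2)
  · exact hdf ω ν j (((hg ω ν hω hν ht hn).2 hC).1 j j.2)
  · obtain ⟨-, e2, e3⟩ := (hg ω ν hω hν ht hn).2 hC
    rw [TVA_sub hw (hcl ω hω v), TVA_sub hw (hcl ν hν v)]
    have hv : v = 0 ∨ v = 1 := by
      rcases v with ⟨v, hv⟩
      interval_cases v
      · left; rfl
      · right; rfl
    rcases hv with rfl | rfl
    · have e4 : ∀ j : Fin k, ggC (0 : Fin 2) (fun ω (j : Fin k) => 2 ^ Xu / 2 ^ X * gt ω j) ω 0 j =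
          2 ^ Xu / 2 ^ X * gt ω j := fun j => if_pos rfl
      have e5 : (2 : ℝ) ^ X * ∑ j : Fin k, ggC (0 : Fin 2)
          (fun ω (j : Fin k) => 2 ^ Xu / 2 ^ X * gt ω j) ω 0 j *
            (2 ^ (γ (j : ℕ) + q) * (hgt F c G₀ ω j - hgt F c G₀ ν j)) =
          2 ^ Xu * ∑ j ∈ range k, gt ω j * (2 ^ (γ j + q) * (hgt F c G₀ ω j - hgt F c G₀ ν j)) := by
        rw [Finset.sum_range, Finset.mul_sum, Finset.mul_sum]
        refine Finset.sum_congr rfl fun j _ => ?_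
        rw [e4]
        field_simp
      rw [e5, hX0, h0]
      have e6 : ∀ x y z : ℝ, (2 : ℝ) ^ Xu * (x * y - x * z) - 2 ^ Xu * (∑ j ∈ range k,
          gt ω j * (2 ^ (γ j + q) * (hgt F c G₀ ω j - hgt F c G₀ ν j))) =
          2 ^ Xu * (x * (y - z) - ∑ j ∈ range k,
            gt ω j * (2 ^ (γ j + q) * (hgt F c G₀ ω j - hgt F c G₀ ν j))) := fun x y z => by ring
      show |2 ^ Xu * (2 ^ (γ (k + 0) + q) * hgt F c G₀ ω (k + 0) -
        2 ^ (γ (k + 0) + q) * hgt F c G₀ ν (k + 0)) - _| ≤ U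
      rw [Nat.add_zero, e6, abs_mul, abs_of_pos (show (0 : ℝ) < 2 ^ Xu by positivity)]
      have e7 := mul_le_mul_of_nonneg_left e2 (show (0 : ℝ) ≤ 2 ^ Xu by positivity)
      rwa [mul_div_cancel₀ _ (by positivity)] at e7
    · have e4 : ∀ j : Fin k, ggC (0 : Fin 2) (fun ω (j : Fin k) => 2 ^ Xu / 2 ^ X * gt ω j) ω 1 j =
          0 := fun j => if_neg (by decide)
      rw [Finset.sum_eq_zero fun j _ => by rw [e4, zero_mul], mul_zero, sub_zero]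
      show |2 ^ Xt 1 * (2 ^ (γ (k + 1) + qt 1) * hgt F c G₀ ω (k + 1) -
        2 ^ (γ (k + 1) + qt 1) * hgt F c G₀ ν (k + 1))| ≤ U
      refine le_trans ?_ e3
      rw [← mul_sub, ← mul_assoc, ← pow_add, abs_mul, abs_mul,
        abs_of_pos (show (0 : ℝ) < 2 ^ (Xt 1 + (γ (k + 1) + qt 1)) by positivity),
        abs_of_pos (show (0 : ℝ) < 2 ^ (γ (k + 1) + q) by positivity)]
      exact mul_le_mul_of_nonneg_right (pow_le_pow_right₀ one_le_two (by omega)) (abs_nonneg _)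

end

end Pool.VA83
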