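import Pool.Agent.H83.VA.Pth
import Pool.Agent.H63.V0T.Grd

/-!
# The class theorem for a steep place and a flatter last place: the gradients

`grA`: the gradient of the place `k` and the flatness of the last place on one event.
-/

set_option autoImplicit false

namespace Pool.VA83

open Finset Real MvPolynomial
open Pool.Agent.H49.Ent Pool.Agent.H32.Dense
open Pool.STK hiding pr2
open Pool.KA Pool.KSAT Pool.K2S Pool.PB Pool.S6C
open Pool.GEN Pool.CHT Pool.CHX Pool.ISO Pool.LA91 Pool.AVG71 Pool.AVG5 Pool.D2F2 Pool.AVG57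
open Pool.RCD Pool.AVG96 Pool.OWN68 Pool.V0F Pool.V0Q Pool.V0T Pool.V0S Pool.T4C72 Pool.XR71
open Pool.VP83
open Pool.PB.Trl (rt rt_mem t_rt)
open Pool.D2R (WinB gnh hgt hyb chs chs_eq)
open Pool.LV64 (NrH)
open Pool.V0S (ggC)

/-- **The gradients**: `r` the target of the gradient. -/
theorem grA (D D' k : ℕ) : ∃ C : ℕ, 1 ≤ C ∧
    ∀ {S : PCl (k + 2)} {c : ℕ → Fin (k + 2)} {sn sp : ℕ → ℝ → ℝ} {Gs : Set ℝ}
    {al be h b o w u Λ φ e s₀ ξ y : ℝ} {lam : ℝ → ℝ} {Dr N M : ℕ} {C₀ a Eb ηm E : ℝ}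
    {ow η σ : ℕ → ℝ} {lv bb : ℕ → ℕ → ℝ} {fb fn : ℕ → ℕ} {nb n ks : ℕ}
    (_ : XBox S c k sn sp Gs al be h b o w u Λ φ e lam)
    (_ : WnT k 1 sn Gs s₀ b w u Λ φ N C₀ Eb ηm ow lv fb fn nb n ks) (_ : 2 ≤ Λ)
    (_ : (al + 60) * φ ≤ y) (_ : 2 * y ≤ u) (_ : 0 < s₀) (_ : 1 < al) (_ : 0 < ξ)
    (_ : 1 + ξ ≤ al) (_ : ξ ≤ 1) (_ : ξ * s₀ ≤ al - 1)
    {J : ℕ} {F : Fam (k + 2) J} {A : F.Ω → Prop} {κ : ℝ} {z : ℕ → ℕ → ℕ} {g₀ : ℕ → ℕ → ℕ}
    {Gc : ℕ → PtT F → ℕ → MvPolynomial (Option (Fin (k + 2))) ℝ}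
    {H : ℕ → LnT F → ℕ → MvPolynomial (Option (Fin (k + 2))) ℝ}
    {GN : PtT F → ℕ → MvPolynomial (Option (Fin (k + 2))) ℝ}
    {HN : LnT F → ℕ → MvPolynomial (Option (Fin (k + 2))) ℝ}
    (_ : WinB F c (k + 1) D Dr N M C₀ a Eb ηm ow η σ lv bb κ z A g₀ Gc H)
    (_ : RadT nb n M J u ow fb fn z)
    (_ : LbT F c k 1 D' w u φ E sn A (g₀ (fn 0)) (Gc (fn 0)) GN HN)
    (_ : 10 ≤ φ * J) (_ : (nb : ℝ) ≤ φ * J) (_ : (n : ℝ) ≤ φ * J) {Xu : ℕ}
    (_ : (Xu : ℝ) ≤ ξ * u * J),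
    (∀ ω, A ω → ∀ l, k ≤ l → l ≤ k + 1 → ∀ i < k,
      |ggT F c k Gc GN (fb 0) (fn n) (g₀ (fn 0)) l ω i| ≤ 2 ^ (C * (⌈1000 * y * J⌉₊ + 3))) ∧
    ∀ ω ν, A ω → A ν → F.t ω = F.t ν →
      (∀ j < k, |hgt F c (frT Gc GN (fb 0) k) ω j - hgt F c (frT Gc GN (fb 0) k) ν j| ≤
        2 ^ 2 / 2 ^ (g₀ (fn 0) j + ⌊(u + 500 * y) * J⌋₊)) →
      (chT F k 1 ks Gc GN (fb 0) fn ω = chT F k 1 ks Gc GN (fb 0) fn ν → ∀ j < k,
        |ggT F c k Gc GN (fb 0) (fn n) (g₀ (fn 0)) k ω j -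
          ggT F c k Gc GN (fb 0) (fn n) (g₀ (fn 0)) k ν j| ≤
            2 ^ (C * (⌈1000 * y * J⌉₊ + 3)) / 2 ^ Xu) ∧
      (chT F k 1 n Gc GN (fb 0) fn ω = chT F k 1 n Gc GN (fb 0) fn ν →
        (∀ j < k, |ggT F c k Gc GN (fb 0) (fn n) (g₀ (fn 0)) k ω j -
          ggT F c k Gc GN (fb 0) (fn n) (g₀ (fn 0)) k ν j| ≤
            2 ^ (C * (⌈1000 * y * J⌉₊ + 3)) / 2 ^ Xu) ∧
        |2 ^ (g₀ (fn 0) k + ⌊(u + 500 * y) * J⌋₊) * (hgt F c (frT Gc GN (fb 0) k) ω k -
            hgt F c (frT Gc GN (fb 0) k) ν k) -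
          ∑ j ∈ range k, ggT F c k Gc GN (fb 0) (fn n) (g₀ (fn 0)) k ω j *
            (2 ^ (g₀ (fn 0) j + ⌊(u + 500 * y) * J⌋₊) * (hgt F c (frT Gc GN (fb 0) k) ω j -
              hgt F c (frT Gc GN (fb 0) k) ν j))| ≤ 2 ^ (C * (⌈1000 * y * J⌉₊ + 3)) / 2 ^ Xu ∧
        |2 ^ (g₀ (fn 0) (k + 1) + ⌊(u + 500 * y) * J⌋₊) *
          (hgt F c (frT Gc GN (fb 0) k) ω (k + 1) - hgt F c (frT Gc GN (fb 0) k) ν (k + 1))| ≤
            2 ^ (C * (⌈1000 * y * J⌉₊ + 3))) := by
  have HG : GfrS := fun D D' r => Pool.GF64.gfr D D' r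
  obtain ⟨Cg, hCg, Hg⟩ := HG D D' (k + 1)
  refine ⟨Cg + (4 * k + 1), by omega, ?_⟩
  intro S c sn sp Gs al be h b o w u Λ φ e s₀ ξ y lam Dr N M C₀ a Eb ηm E ow η σ lv bb fb fn nb n
    ks Bx Wn hΛ hy1 hyu hs₀ hal hξ0 hξal hξ1 hξs J F A κ z g₀ Gc H GN HN W Rd hL big hnb hn' Xu hXu
  have hJ : (0 : ℝ) ≤ J := Nat.cast_nonneg J
  have hu := Bx.u0
  have hφ := Bx.lad.φ0
  have hbe := Bx.be1
  have hbal := Bx.bal
  have hφal : 0 < al * φ := mul_pos (by linarith) hφ
  have hy2 : al * φ + 60 * φ ≤ y := by linarith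
  have hy0 : 0 < y := by linarith
  have hφbe : be * φ ≤ al * φ := mul_le_mul_of_nonneg_right hbal hφ.le
  have hLu : 2 * u ≤ Λ * u := mul_le_mul_of_nonneg_right hΛ hu.le
  have hbw := Bx.bw
  have hwo := Bx.wo
  have how := Wn.ow0
  have hlv := Wn.lv
  have hf0 := Wn.eq
  have hob := Wn.ob
  have b1 : b ≤ w := by linarith
  obtain ⟨Y, hY⟩ : ∃ Y : ℕ, Y = ⌈1000 * y * (J : ℝ)⌉₊ + 3 := ⟨_, rfl⟩
  have hY1 : 1000 * y * (J : ℝ) + 3 ≤ Y := by
    rw [hY]
    push_cast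
    have := Nat.le_ceil (1000 * y * (J : ℝ))
    linarith
  have hY3 : 3 ≤ Y := by
    rw [hY]
    omega
  have mj : ∀ {a a' : ℝ}, a ≤ a' → a * J ≤ a' * J := fun h => mul_le_mul_of_nonneg_right h hJ
  have yJ : 10 ≤ y * J := by
    have := mj (show φ ≤ y by linarith)
    linarith
  have hφY : 1000 * (φ * J) ≤ Y := by
    have := mj (show φ ≤ y by linarith)
    linarith
  have hsY : 1000 * (al * φ * J) ≤ Y := by
    have := mj (show al * φ ≤ y by linarith)
    linarith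
  have hbY : 1000 * (be * φ * J) ≤ Y := by
    have := mj hφbe
    linarith
  -- monotone windows
  have stb := Wn.bs
  have st := Wn.ns
  have mb := mono_ch fun k hk => (stb k hk).1
  have mf := mono_ch fun k hk => (st k hk).1
  have rb : ∀ k ≤ nb, b ≤ ow (fb k) ∧ ow (fb k) ≤ w := by
    intro k hk
    have e1 := mb 0 k (Nat.zero_le _) hk
    have e2 := mb k nb hk le_rfl
    rw [hob] at e1
    rw [← hf0, how] at e2
    exact ⟨e1, e2⟩
  have hon := abs_le.1 Wn.on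
  have hok := abs_le.1 Wn.oks
  have rf : ∀ k ≤ n, w ≤ ow (fn k) ∧ ow (fn k) ≤ o := by
    intro k hk
    have e1 := mf 0 k (Nat.zero_le _) hk
    have e2 := mf k n hk le_rfl
    rw [how] at e1
    exact ⟨e1, by linarith⟩
  have hwo' : w ≤ o := (rf 0 (Nat.zero_le _)).1.trans (rf 0 (Nat.zero_le _)).2
  have sl : ∀ l < k, ∀ v ∈ Gs, b ≤ v → v ≤ o → |(sn l v - v) - (sn l w - w)| ≤ 2 * φ := by
    intro l hl v hv h1 h2
    have e1 := abs_le.1 (Bx.lad.fl l hl v hv h1 h2)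
    have e2 := abs_le.1 (Bx.lad.fl l hl w Bx.wG b1 hwo')
    rw [abs_le]
    constructor <;> linarith
  have hq1 : (u + 500 * y) * J - 1 ≤ (⌊(u + 500 * y) * J⌋₊ : ℝ) := by
    have := Nat.lt_floor_add_one ((u + 500 * y) * (J : ℝ))
    linarith
  have hq2 : (⌊(u + 500 * y) * J⌋₊ : ℝ) ≤ (u + 500 * y) * J :=
    Nat.floor_le (mul_nonneg (by linarith) hJ)
  obtain ⟨κN, hκN⟩ := hL.near
  have p2 : (2 : ℝ) ^ (φ * (J : ℝ)) ≤ 2 ^ Y := by
    rw [← Real.rpow_natCast]
    exact Real.rpow_le_rpow_of_exponent_le one_le_two (by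
      have : 0 ≤ φ * (J : ℝ) := by positivity
      linarith)
  obtain ⟨zb, zf, -⟩ := Rd
  choose! jb hjb using zb
  choose! jj hjj using zf
  have hCη := Wn.C0
  rw [← hY]
  -- the slopes of both places
  have lin : ∀ l, k ≤ l → l ≤ k + 1 → ∃ a' : ℝ, (l = k → a' = al) ∧ be ≤ a' ∧ a' ≤ al ∧
      ∀ v ∈ Gs, b ≤ v → v ≤ o → |sn l v - sn l w - a' * (v - w)| ≤ φ := by
    intro l h1 h2
    rcases Nat.lt_or_ge k l with h3 | h3
    · obtain rfl : l = k + 1 := by omega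
      exact ⟨be, fun h => absurd h (by omega), le_rfl, hbal, Bx.lin1⟩
    · obtain rfl : l = k := by omega
      exact ⟨al, fun _ => rfl, hbal, le_rfl, Bx.lin0⟩
  -- one target
  have key := fun (l : ℕ) (hl1 : k ≤ l) (hl2 : l ≤ k + 1) (b' : ℝ) (X : ℕ) (hb1 : 1 ≤ b')
      (hbb : b' ≤ al) (hgr : ∀ l', k ≤ l' → l' ≤ l → ∀ a' : ℝ,
        (∀ v ∈ Gs, b ≤ v → v ≤ o → |sn l' v - sn l' w - a' * (v - w)| ≤ φ) →
        (l' = k → a' = al) → be ≤ a' → b' ≤ a')
      (hX1 : ((u + 500 * y) * J) + X ≤ b' * ((u - φ) * J) + Y) (hX2 : (X : ℝ) ≤ u * J)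
      (hX3 : (X : ℝ) ≤ (b' - 1) * ((u / s₀ - φ) * J) + Y) =>
    Hg W (GN := fun y => GN y l) (κN := κN l) (fb := fb) (jb := jb) (f := fn) (jj := jj) (k := k)
      (i := l) (nb := nb) (n := n) (ks := ks) (q := ⌊(u + 500 * y) * J⌋₊)
      (X := X) (Y := Y) (S := 1) (b' := b') hl1 hl2 Wn.fbN
      (fun t ht => ⟨(hjb t ht).1, (hjb t ht).2, (stb t ht).1⟩)
      (le_two_pow hnb (by linarith)) (fun t ht l hl => by
        obtain ⟨r1, r2⟩ := rb t ht
        have e0 : ow (fb nb) = w := by rw [← hf0, how]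
        rw [hlv _ (Wn.fbN t ht) l (by omega), hlv _ (Wn.fbN nb le_rfl) l (by omega), e0]
        have e1 := abs_le.1 (sl l hl _ (Wn.bG t ht) r1 (r2.trans hwo'))
        have e2 := mj e1.1
        have e3 := mj e1.2
        constructor <;> linarith) hf0 Bx.lad.inj Wn.n1 Wn.fnN
      (fun t ht => ⟨(hjj t ht).1, (hjj t ht).2, (st t ht).1⟩) (by
        have e1 := mj hCη
        have e2 : C₀ * (ηm * J) = C₀ * ηm * J := by ring
        rw [e2]
        linarith) hY3 (le_two_pow hn' (by linarith)) zero_le_one hb1 (fun t ht l' hl' => by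
        obtain ⟨r1, r2⟩ := rf t ht.le
        obtain ⟨r3, r4⟩ := rf (t + 1) (by omega)
        obtain ⟨r5, r6⟩ := st t ht
        rw [hlv _ (Wn.fnN t ht.le) l' (by omega), hlv _ (Wn.fnN (t + 1) (by omega)) l' (by omega)]
        rcases Nat.lt_or_ge l' k with h | h
        · have e1 := abs_le.1 (sl l' h _ (Wn.nG t ht.le) (b1.trans r1) r2)
          have e2 := abs_le.1 (sl l' h _ (Wn.nG (t + 1) (by omega)) (b1.trans r3) r4)
          have e3 := mj (show sn l' (ow (fn (t + 1))) - sn l' (ow (fn t)) ≤ 5 * φ by linarith)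
          have e4 := mj (show sn l' (ow (fn t)) - sn l' (ow (fn (t + 1))) ≤ 5 * φ by linarith)
          constructor <;> linarith
        · obtain ⟨a', -, ha1, ha2, ha3⟩ := lin l' h (by omega)
          have e1 := abs_le.1 (ha3 _ (Wn.nG t ht.le) (b1.trans r1) r2)
          have e2 := abs_le.1 (ha3 _ (Wn.nG (t + 1) (by omega)) (b1.trans r3) r4)
          have e5 : a' * (ow (fn (t + 1)) - ow (fn t)) ≤ al * φ :=
            mul_le_mul ha2 (by linarith) (by linarith) (by linarith)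
          have e6 : 0 ≤ a' * (ow (fn (t + 1)) - ow (fn t)) :=
            mul_nonneg (by linarith) (by linarith)
          have e3 := mj (show sn l' (ow (fn (t + 1))) - sn l' (ow (fn t)) ≤ al * φ + 2 * φ by
            linarith)
          have e4 := mj (show sn l' (ow (fn t)) - sn l' (ow (fn (t + 1))) ≤ 2 * φ by linarith)
          constructor <;> linarith) (fun t ht => by
        obtain ⟨r5, r6⟩ := st t ht
        have e5 : b' * (ow (fn (t + 1)) - ow (fn t)) ≤ al * φ :=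
          mul_le_mul hbb (by linarith) (by linarith) (by linarith)
        have e6 := mj e5
        have e7 : b' * ((ow (fn (t + 1)) - ow (fn t)) * J) =
          b' * (ow (fn (t + 1)) - ow (fn t)) * J := by ring
        rw [e7]
        have : 0 ≤ al * φ * J := by positivity
        linarith) (fun t t' htt ht' l' hl' => by
        obtain ⟨r1, r2⟩ := rf t (htt.trans ht')
        obtain ⟨r3, r4⟩ := rf t' ht'
        rw [hlv _ (Wn.fnN t (htt.trans ht')) l' (by omega), hlv _ (Wn.fnN t' ht') l' (by omega)]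
        have e1 := abs_le.1 (sl l' hl' _ (Wn.nG t (htt.trans ht')) (b1.trans r1) r2)
        have e2 := abs_le.1 (sl l' hl' _ (Wn.nG t' ht') (b1.trans r3) r4)
        have e3 := mj (show sn l' (ow (fn t')) - sn l' (ow (fn t)) ≤
          (ow (fn t') - ow (fn t)) + 4 * φ by linarith)
        linarith) (fun t t' htt ht' l' hl' hl'' => by
        obtain ⟨r1, r2⟩ := rf t (htt.trans ht')
        obtain ⟨r3, r4⟩ := rf t' ht'
        rw [hlv _ (Wn.fnN t (htt.trans ht')) l' (by omega), hlv _ (Wn.fnN t' ht') l' (by omega)]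
        obtain ⟨a', ha0, ha1, ha2, ha3⟩ := lin l' hl' (by omega)
        have e1 := abs_le.1 (ha3 _ (Wn.nG t (htt.trans ht')) (b1.trans r1) r2)
        have e2 := abs_le.1 (ha3 _ (Wn.nG t' ht') (b1.trans r3) r4)
        have e4 : b' * (ow (fn t') - ow (fn t)) ≤ a' * (ow (fn t') - ow (fn t)) :=
          mul_le_mul_of_nonneg_right (hgr l' hl' hl'' a' ha3 ha0 ha1)
            (sub_nonneg.2 (mf t t' htt ht'))
        have e3 := mj (show b' * (ow (fn t') - ow (fn t)) ≤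
          sn l' (ow (fn t')) - sn l' (ow (fn t)) + 2 * φ by linarith)
        have e7 : b' * ((ow (fn t') - ow (fn t)) * J) = b' * (ow (fn t') - ow (fn t)) * J := by
          ring
        rw [e7]
        linarith) (hL.deg l hl1 hl2).1 (hL.dep l hl1 hl2).1 (fun ω hω x hx => by
        rw [how] at hx
        exact (hκN l hl1 hl2 ω hω x hx).trans
          (div_le_div_of_nonneg_right p2 (by positivity))) (by
        rw [how]
        have e1 := mj (show ow (fn n) - w + φ ≤ u + 500 * y by linarith)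
        linarith) (by
        rw [how]
        have e1 : b' * ((u - φ) * J) ≤ b' * ((ow (fn n) - w) * J) :=
          mul_le_mul_of_nonneg_left (mj (by linarith)) (by linarith)
        linarith) (by
        have e1 := mj (show u + y ≤ u + 500 * y by linarith)
        have e2 : (X : ℝ) ≤ (⌊(u + 500 * y) * J⌋₊ : ℝ) := by linarith
        exact_mod_cast e2) Wn.kn (by
        rw [how]
        have e1 : (b' - 1) * ((u / s₀ - φ) * J) ≤ (b' - 1) * ((ow (fn ks) - w) * J) :=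
          mul_le_mul_of_nonneg_left (mj (by linarith)) (by linarith)
        linarith)
  have hXJ : (Xu : ℝ) ≤ u * J := hXu.trans (mj (by
    have : ξ * u ≤ 1 * u := mul_le_mul_of_nonneg_right hξ1 hu.le
    linarith))
  have kk := key k le_rfl (by omega) al Xu hal.le le_rfl (fun l' h1 h2 a' _ h4 _ => by
      rw [h4 (by omega)]) (by
      have e1 := mj (show (u + 500 * y) + ξ * u ≤ al * (u - φ) + 1000 * y by
        have : (1 + ξ) * u ≤ al * u := mul_le_mul_of_nonneg_right hξal hu.le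
        linarith)
      have e2 : al * ((u - φ) * J) = al * (u - φ) * J := by ring
      rw [e2]
      linarith) hXJ (by
      have e0 : ξ * u ≤ (al - 1) * (u / s₀) := by
        rw [mul_div_assoc', le_div_iff₀ hs₀]
        have : ξ * s₀ * u ≤ (al - 1) * u := mul_le_mul_of_nonneg_right hξs hu.le
        linarith
      have e1 := mj (show ξ * u ≤ (al - 1) * (u / s₀ - φ) + 1000 * y by
        have : (al - 1) * (u / s₀ - φ) = (al - 1) * (u / s₀) - al * φ + φ := by ring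
        rw [this]
        linarith)
      have e2 : (al - 1) * ((u / s₀ - φ) * J) = (al - 1) * (u / s₀ - φ) * J := by ring
      rw [e2]
      linarith)
  have kn := key (k + 1) (by omega) le_rfl be 0 hbe hbal (fun l' h1 h2 a' _ _ h5 => h5) (by
      have e1 := mj (show (u + 500 * y) ≤ be * (u - φ) + 1000 * y by
        have : 1 * u ≤ be * u := mul_le_mul_of_nonneg_right hbe hu.le
        linarith)
      have e2 : be * ((u - φ) * J) = be * (u - φ) * J := by ring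
      rw [e2]
      push_cast
      linarith) (by
      push_cast
      exact mul_nonneg hu.le hJ) (by
      have e1 : 0 ≤ (be - 1) * ((u / s₀ - φ) * J) + be * φ * J := by
        have e3 : 0 ≤ (be - 1) * (u / s₀ * J) :=
          mul_nonneg (by linarith) (mul_nonneg (div_nonneg hu.le hs₀.le) hJ)
        have e4 : (be - 1) * ((u / s₀ - φ) * J) = (be - 1) * (u / s₀ * J) - be * φ * J +
          φ * J := by ring
        have e5 : 0 ≤ φ * J := mul_nonneg hφ.le hJ
        linarith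
      push_cast
      linarith)
  have hCC : (2 : ℝ) ^ (Cg * Y) ≤ 2 ^ ((Cg + (4 * k + 1)) * Y) :=
    pow_le_pow_right₀ one_le_two (Nat.mul_le_mul_right _ (by omega))
  have U0 : (0 : ℝ) ≤ 2 ^ (Cg * Y) := by positivity
  -- the heights of the frame
  have hg1 : ∀ (l : ℕ) (ω : F.Ω) (i : ℕ), i < k →
      hgt F c (folN Gc (fun y => GN y l) (fb 0) (fn n) k l) ω i =
        hgt F c (frT Gc GN (fb 0) k) ω i := by
    intro l ω i hi
    unfold Pool.D2R.hgt folN frT
    rw [if_pos hi, if_pos hi]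
  have hg2 : ∀ (l : ℕ) (ω : F.Ω), k ≤ l →
      hgt F c (folN Gc (fun y => GN y l) (fb 0) (fn n) k l) ω l =
        hgt F c (frT Gc GN (fb 0) k) ω l := by
    intro l ω hl
    unfold Pool.D2R.hgt folN frT
    rw [if_neg (by omega), if_neg (lt_irrefl _), if_neg (by omega)]
  -- equal charts of the frame
  have hfr : ∀ {ω ν : F.Ω} {n' : ℕ},
      chT F k 1 n' Gc GN (fb 0) fn ω = chT F k 1 n' Gc GN (fb 0) fn ν →
      (∀ t ≤ n', ∀ l ≤ k + 1, Gc (fn t) (ptr F J ω) l = Gc (fn t) (ptr F J ν) l) ∧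
      (∀ l < k, Gc (fb 0) (ptr F J ω) l = Gc (fb 0) (ptr F J ν) l) ∧
      ∀ l, k ≤ l → l ≤ k + 1 → GN (ptr F J ω) l = GN (ptr F J ν) l := by
    intro ω ν n' h
    have e1 := congrArg Prod.fst h
    have e2 := congrArg Prod.snd h
    refine ⟨chs_eq e1, fun l hl => ?_, fun l hl hl' => ?_⟩
    · have e3 := congrFun e2 ⟨l, by omega⟩
      simpa [chT, frT, hl] using e3
    · have e3 := congrFun e2 ⟨l, by omega⟩
      simpa [chT, frT, not_lt.2 hl] using e3
  have hbd : ∀ ω, A ω → ∀ l, k ≤ l → l ≤ k + 1 → ∀ i < k,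
      |ggT F c k Gc GN (fb 0) (fn n) (g₀ (fn 0)) l ω i| ≤ 2 ^ (Cg * Y) := by
    intro ω hω l h1 h2 i hi
    rcases Nat.lt_or_ge k l with h3 | h3
    · obtain rfl : l = k + 1 := by omega
      exact kn.1 ω hω i (by omega) (fun h => absurd hi (by omega))
    · obtain rfl : l = k := by omega
      exact kk.1 ω hω i hi (fun h => absurd hi (by omega))
  refine ⟨fun ω hω l h1 h2 i hi => (hbd ω hω l h1 h2 i hi).trans hCC,
    fun ω ν hω hν ht hnr => ⟨fun hc j hj => ?_, fun hc => ?_⟩⟩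
  · obtain ⟨f1, f2, f3⟩ := hfr hc
    refine ((kk.2 ω ν hω hν ht (f3 k le_rfl (by omega)) (fun j hj => ?_) f2).1
      (fun t ht l hl => f1 t ht l (by omega)) j hj).trans (div_le_div_of_nonneg_right hCC
        (by positivity))
    rw [hg1 k ω j hj, hg1 k ν j hj]
    exact hnr j hj
  · obtain ⟨f1, f2, f3⟩ := hfr hc
    have e1 := (kk.2 ω ν hω hν ht (f3 k le_rfl (by omega)) (fun j hj => by
      rw [hg1 k ω j hj, hg1 k ν j hj]
      exact hnr j hj) f2).2 (fun t ht l hl => f1 t ht l (by omega))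
    have e2 := ((kn.2 ω ν hω hν ht (f3 (k + 1) (by omega) le_rfl) (fun j hj => by
      rw [hg1 (k + 1) ω j hj, hg1 (k + 1) ν j hj]
      exact hnr j hj) f2).2 (fun t ht l hl => f1 t ht l (by omega))).2
    refine ⟨fun j hj => (e1.1 j hj).trans (div_le_div_of_nonneg_right hCC (by positivity)),
      ?_, ?_⟩
    · have e3 := e1.2
      rw [hg2 k ω le_rfl, hg2 k ν le_rfl] at e3
      have e4 : ∑ j ∈ range k, ggT F c k Gc GN (fb 0) (fn n) (g₀ (fn 0)) k ω j *
          (2 ^ (g₀ (fn 0) j + ⌊(u + 500 * y) * J⌋₊) * (hgt F c (frT Gc GN (fb 0) k) ω j -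
            hgt F c (frT Gc GN (fb 0) k) ν j)) =
          ∑ j ∈ range k, gnh F c k (g₀ (fn 0)) (folN Gc (fun y => GN y k) (fb 0) (fn n) k k)
            (Gc (fn n)) ω j * (2 ^ (g₀ (fn 0) j + ⌊(u + 500 * y) * J⌋₊) *
              (hgt F c (folN Gc (fun y => GN y k) (fb 0) (fn n) k k) ω j -
                hgt F c (folN Gc (fun y => GN y k) (fb 0) (fn n) k k) ν j)) := by
        refine Finset.sum_congr rfl fun j hj => ?_
        rw [hg1 _ ω j (mem_range.1 hj), hg1 _ ν j (mem_range.1 hj)]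
        rfl
      rw [e4]
      exact e3.trans (div_le_div_of_nonneg_right hCC (by positivity))
    · rw [hg2 (k + 1) ω (by omega), hg2 (k + 1) ν (by omega), pow_zero, div_one] at e2
      -- the sum
      have e5 : |∑ j ∈ range k, gnh F c (k + 1) (g₀ (fn 0)) (folN Gc (fun y => GN y (k + 1))
          (fb 0) (fn n) k (k + 1)) (Gc (fn n)) ω j * (2 ^ (g₀ (fn 0) j +
            ⌊(u + 500 * y) * J⌋₊) * (hgt F c (folN Gc (fun y => GN y (k + 1)) (fb 0) (fn n) k
              (k + 1)) ω j - hgt F c (folN Gc (fun y => GN y (k + 1)) (fb 0) (fn n) k (k + 1))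
                ν j))| ≤ k * (2 ^ (Cg * Y) * 4) := by
        refine (Finset.abs_sum_le_sum_abs _ _).trans ?_
        have e6 : ∀ j ∈ range k, |gnh F c (k + 1) (g₀ (fn 0)) (folN Gc (fun y => GN y (k + 1))
          (fb 0) (fn n) k (k + 1)) (Gc (fn n)) ω j * (2 ^ (g₀ (fn 0) j +
            ⌊(u + 500 * y) * J⌋₊) * (hgt F c (folN Gc (fun y => GN y (k + 1)) (fb 0) (fn n) k
              (k + 1)) ω j - hgt F c (folN Gc (fun y => GN y (k + 1)) (fb 0) (fn n) k (k + 1))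
                ν j))| ≤ 2 ^ (Cg * Y) * 4 := by
          intro j hj
          rw [mem_range] at hj
          rw [hg1 _ ω j hj, hg1 _ ν j hj, abs_mul, abs_mul,
            abs_of_pos (show (0 : ℝ) < 2 ^ (g₀ (fn 0) j + ⌊(u + 500 * y) * J⌋₊) by positivity)]
          refine mul_le_mul (hbd ω hω (k + 1) (by omega) le_rfl j hj) ?_ (by positivity) U0
          have e7 := mul_le_mul_of_nonneg_left (hnr j hj)
            (show (0 : ℝ) ≤ 2 ^ (g₀ (fn 0) j + ⌊(u + 500 * y) * J⌋₊) by positivity)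
          rw [mul_div_cancel₀ _ (by positivity)] at e7
          linarith
        refine (Finset.sum_le_sum e6).trans ?_
        rw [Finset.sum_const, card_range, nsmul_eq_mul]
      have e8 : (2 : ℝ) ^ (Cg * Y) + k * (2 ^ (Cg * Y) * 4) ≤ 2 ^ ((Cg + (4 * k + 1)) * Y) := by
        rw [add_mul, pow_add]
        have e9 : (1 : ℝ) + 4 * k ≤ 2 ^ ((4 * k + 1) * Y) := by
          have e10 : (2 : ℝ) ^ (4 * k + 1) ≤ 2 ^ ((4 * k + 1) * Y) :=
            pow_le_pow_right₀ one_le_two (Nat.le_mul_of_pos_right _ (by omega))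
          have e11 : ((4 * k + 1 : ℕ) : ℝ) ≤ 2 ^ (4 * k + 1) := by
            exact_mod_cast Nat.lt_two_pow_self.le
          push_cast at e11
          linarith
        have e12 := mul_le_mul_of_nonneg_left e9 U0
        linarith
      refine le_trans ?_ e8
      have e13 := abs_le.1 e2
      have e14 := abs_le.1 e5
      rw [abs_le]
      constructor <;> linarith

end Pool.VA83
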