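import Pool.Agent.H83.VA.T
import Pool.Agent.H87.V0S.Ev
import Pool.Agent.H57.AVG.C1a
import Pool.Agent.H57.AVG.Pra
import Pool.Agent.H66.AVG.Rln
import Pool.Agent.H48.V0T.Cnv

/-!
# The class theorem for a steep place and a flatter last place: the paths of the targets

`tpA`: the own paths of the places `k`, `k + 1`; `TVA`: their values. `dj_cod`, `jt_cod`: the codes
from the codes `cod`.
-/

set_option autoImplicit false

namespace Pool.VA83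

open Finset Real MvPolynomial
open Pool.Agent.H49.Ent Pool.Agent.H32.Dense
open Pool.STK hiding pr2
open Pool.KA Pool.KSAT Pool.K2S Pool.PB Pool.S6C
open Pool.GEN Pool.CHT Pool.CHX Pool.ISO Pool.LA91 Pool.AVG71 Pool.AVG5 Pool.D2F2 Pool.AVG57
open Pool.RCD Pool.AVG96 Pool.OWN68 Pool.V0F Pool.V0Q Pool.V0T Pool.V0S
open Pool.PB.Trl (rt rt_mem t_rt)
open Pool.D2R (hgt)
open Pool.AVG66 (dvW_ojet)

section

variable {m J : ℕ} {F : Fam m J} {c : ℕ → Fin m} {k w W D K : ℕ} {qt Xt : Fin 2 → ℕ} {γ : ℕ → ℕ}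
  {H : LnT F → ℕ → MvPolynomial (Option (Fin m)) ℝ}

/-- **The own paths** of the places `k`, `k + 1` in the window `W`. -/
noncomputable def tpA (F : Fam m J) (c : ℕ → Fin m) (k w : ℕ) (qt : Fin 2 → ℕ) (γ : ℕ → ℕ)
    (H : LnT F → ℕ → MvPolynomial (Option (Fin m)) ℝ) (W : ℕ) (ω : F.Ω) (v : Fin 2) :
    Polynomial ℝ :=
  Polynomial.C (2 ^ (γ (k + v) + qt v)) *
    dv W (fun s (_ : Fin m) => H (upw w W s) (k + v)) (c (k + v)) (slam F W ω)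

/-- **The own heights** of the places `k`, `k + 1`. -/
noncomputable def TVA (F : Fam m J) (c : ℕ → Fin m) (k w : ℕ) (qt : Fin 2 → ℕ) (γ : ℕ → ℕ)
    (H : LnT F → ℕ → MvPolynomial (Option (Fin m)) ℝ) (ω : F.Ω) (v : Fin 2) : ℝ :=
  2 ^ (γ (k + v) + qt v) * ojet F (c (k + v)) 0 (H (slam F w ω) (k + v)) ω

theorem tpA_slam (p : F.Ω → ℝ) : Det p (slam F W) (tpA F c k w qt γ H W) := by
  intro ω ν _ _ e
  funext v
  unfold tpA
  rw [e]

theorem tpA_deg (hH : ∀ s l, (H s l).totalDegree ≤ D) (hK : D + 1 ≤ K) (ω : F.Ω) (v : Fin 2) :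
    (tpA F c k w qt γ H W ω v).natDegree ≤ K := by
  unfold tpA
  exact (Polynomial.natDegree_C_mul_le _ _).trans ((natDegree_dv W
    (G := fun s (_ : Fin m) => H (upw w W s) (k + v)) (fun s _ => hH _ _) _ _).trans hK)

theorem tpA_eval (hw : w ≤ W) (hW : W ≤ J) (ω : F.Ω) (v : Fin 2) :
    (tpA F c k w qt γ H W ω v).eval (rt F W ω) = TVA F c k w qt γ H ω v := by
  unfold tpA TVA
  rw [dvW_ojet hw hW]

/-- The differences of the heights. -/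
theorem TVA_sub (hw : w ≤ J) {G₀ : PtT F → ℕ → MvPolynomial (Option (Fin m)) ℝ} {ω : F.Ω}
    {v : Fin 2} (h : G₀ (ptr F J ω) (k + v) = H (slam F w ω) (k + v)) :
    TVA F c k w qt γ H ω v = 2 ^ (γ (k + v) + qt v) * hgt F c G₀ ω (k + v) := by
  unfold TVA
  rw [hgt_ojet hw h]

variable {p : F.Ω → ℝ}

theorem fin2_ch {α γ' : Type} (h0 : ∀ ω, 0 ≤ p ω) (X : F.Ω → Fin 2 → α) (Z : F.Ω → γ') {e₀ e₁ : ℝ}
    (h1 : CH p (fun ω => X ω 0) Z ≤ e₀) (h2 : CH p (fun ω => X ω 1) Z ≤ e₁) :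
    CH p X Z ≤ e₀ + e₁ := by
  have h3 := CH_subadd h0 (fun ω => X ω 0) (fun ω => X ω 1) Z
  have h4 : CH p X Z ≤ CH p (fun ω => (X ω 0, X ω 1)) Z := by
    refine ch_lt h0 Z ?_
    intro ω ν _ _ e
    obtain ⟨e1, e2⟩ := Prod.ext_iff.mp e
    funext v
    have hv : v = 0 ∨ v = 1 := by
      rcases v with ⟨v, hv⟩
      interval_cases v
      · left; rfl
      · right; rfl
    rcases hv with rfl | rfl
    · exact e1
    · exact e2
  linarith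

/-- **The codes of order at least one.** -/
theorem dj_cod (hp : IsLaw p) (hw : w ≤ W) (hW : W ≤ J) (hH : ∀ s l, (H s l).totalDegree ≤ D)
    {𝓦 : Type} (Z : F.Ω → 𝓦) (hZ : Det p Z (F.T1 W)) {e : ℝ}
    (h : ∀ v : Fin 2, CH p (cod F w (fun s => H s (k + v)) (c (k + v))
      (γ (k + v) + qt v + Xt v) 1 (D + 1)) Z ≤ e) :
    CH p (fun ω v (i : Fin (D + 1)) => ⌊(2 : ℝ) ^ Xt v * (tpA F c k w qt γ H W ω v).coeff i.succ⌋)
      Z ≤ 2 * (e + cA (D + 1)) := by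
  have key : ∀ v : Fin 2, CH p (fun ω (i : Fin (D + 1)) =>
      ⌊(2 : ℝ) ^ Xt v * (tpA F c k w qt γ H W ω v).coeff i.succ⌋) Z ≤ e + cA (D + 1) := fun v =>
    CH_nc (c := c) (k₀ := k + v) (k := 0) (n := 0) (q := qt v) (X := Xt v) (mm := 0) (γ := γ)
      (G := fun _ _ _ => 0) (zw := fun _ => ()) hp hw hW (natDegree_dvH hH le_rfl _) Z hZ (h v)
  have h1 := fin2_ch hp.nonneg (fun ω v (i : Fin (D + 1)) =>
    ⌊(2 : ℝ) ^ Xt v * (tpA F c k w qt γ H W ω v).coeff i.succ⌋) Z (key 0) (key 1)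
  linarith

/-- **The near codes.** -/
theorem jt_cod (hp : IsLaw p) (hw : w ≤ W) (hW : W ≤ J) (hH : ∀ s l, (H s l).totalDegree ≤ D)
    {𝓦 : Type} (Z : F.Ω → 𝓦) (hZ : Det p Z (F.T1 W)) {e : ℝ}
    (h : ∀ v : Fin 2, CH p (cod F w (fun s => H s (k + v)) (c (k + v))
      (γ (k + v) + qt v) 0 (D + 1)) Z ≤ e) :
    CH p (fun ω v (i : Fin (D + 1 + 1)) =>
      ⌊(2 : ℝ) ^ Xt v * (tpA F c k w qt γ H W ω v).coeff i⌋ / 2 ^ Xt v) Z ≤
      2 * (e + cA (D + 1)) := by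
  have key : ∀ v : Fin 2, CH p (fun ω (i : Fin (D + 1 + 1)) =>
      ⌊(2 : ℝ) ^ Xt v * (tpA F c k w qt γ H W ω v).coeff i⌋ / 2 ^ Xt v) Z ≤
      e + cA (D + 1) := fun v =>
    CH_ncd (c := c) (k₀ := k + v) (k := 0) (n := 0) (q := qt v) (X := Xt v) (mm := 0) (γ := γ)
      (G := fun _ _ _ => 0) (zw := fun _ => ()) hp hw hW (natDegree_dvH hH le_rfl _) Z hZ (h v)
  have h1 := fin2_ch hp.nonneg (fun ω v (i : Fin (D + 1 + 1)) =>
    ⌊(2 : ℝ) ^ Xt v * (tpA F c k w qt γ H W ω v).coeff i⌋ / 2 ^ Xt v) Z (key 0) (key 1)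
  linarith

end

end Pool.VA83
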