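import Pool.Agent.H71.XR.S
import Pool.Agent.H72.T4C.S
import Pool.Agent.H83.VP.V0pD

/-!
# A steep place and a flatter last place over slope-one places: the class theorem, statement

`DjA`, `JtA`: the codes of the places `c k`, `c (k + 1)` given the far and the near jets of the
slope-one places. `TaStmt`: slopes one below the place `k`, slope `al` of the place `k`, slope
`be < al` of the last place: the gradient of the place `k` is closed. `lam0`: the near digits of the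
last place (in units).
-/

set_option autoImplicit false

namespace Pool.VA83

open Finset Real MvPolynomial
open Pool.Agent.H49.Ent Pool.Agent.H32.Dense
open Pool.STK hiding pr2
open Pool.KA Pool.KSAT Pool.K2S Pool.PB Pool.S6C
open Pool.GEN Pool.CHT Pool.CHX Pool.ISO Pool.LA91 Pool.AVG71 Pool.AVG5 Pool.D2F2 Pool.AVG57
open Pool.RCD Pool.AVG96 Pool.OWN68 Pool.V0F Pool.V0Q Pool.V0T Pool.XR71 Pool.T4C72
open Pool.AJW (CfB)
open Pool.BFL (Pb)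
open Pool.D2R (WinB)
open Pool.PB.Trl (rt)

/-- **(dj)** The codes of order at least one of the places `c k`, `c (k + 1)`, to `d l * u` digits
behind the natural ones of the window `w`, are few bits given the far jets of the slope-one places
and the record of the window `w`. -/
def DjA {m J : ℕ} (F : Fam m J) (c : ℕ → Fin m) (k D' : ℕ) (sn : ℕ → ℝ → ℝ) (b w u T δ : ℝ)
    (d : ℕ → ℝ) (kb : ℕ) (H : ℕ → LnT F → ℕ → MvPolynomial (Option (Fin m)) ℝ)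
    (HN : LnT F → ℕ → MvPolynomial (Option (Fin m)) ℝ) (B : F.Ω → Prop) : Prop :=
  ∀ l, k ≤ l → l ≤ k + 1 → ∀ N' : ℕ, (N' : ℝ) ≤ (sn l w + d l * u) * J →
    CH (Pool.Agent.H49.Ent.cond F.p B True)
      (Pool.AVG57.cod F ⌊w * J⌋₊ (fun s' => HN s' l) (c l) N' 1 (D' + 1))
      (fun ω => (jet2 F c ⌊w * J⌋₊ (fhT H HN kb k ⌊b * J⌋₊ ⌊w * J⌋₊) 0 k
        (fun l' j' => sn l' w + T * u - (j' : ℝ) * w) ω, (cR F B w ω, F.W ω))) ≤ δ * u * J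

/-- **(jt)** The codes of all orders, to `d l * u` digits, are few bits given the near jets of the
slope-one places and the record of the window `x`. -/
def JtA {m J : ℕ} (F : Fam m J) (c : ℕ → Fin m) (k D' : ℕ) (sn : ℕ → ℝ → ℝ) (b w u φ δ x : ℝ)
    (d : ℕ → ℝ) (kb : ℕ) (H : ℕ → LnT F → ℕ → MvPolynomial (Option (Fin m)) ℝ)
    (HN : LnT F → ℕ → MvPolynomial (Option (Fin m)) ℝ) (B : F.Ω → Prop) : Prop :=
  ∀ l, k ≤ l → l ≤ k + 1 → ∀ N' : ℕ, (N' : ℝ) ≤ (sn l w + d l * u) * J →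
    CH (Pool.Agent.H49.Ent.cond F.p B True)
      (Pool.AVG57.cod F ⌊w * J⌋₊ (fun s' => HN s' l) (c l) N' 0 (D' + 1))
      (fun ω => (jet2 F c ⌊w * J⌋₊ (fhT H HN kb k ⌊b * J⌋₊ ⌊w * J⌋₊) 0 k
        (fun l' j' => sn l' w + u + 400 * ((k : ℝ) + 2) * φ - (j' : ℝ) * w) ω,
        (cR F B x ω, F.W ω))) ≤ δ * u * J

/-- `x` for the place `k`, `y` for the others. -/
def two (k : ℕ) (x y : ℝ) (l : ℕ) : ℝ := if l = k then x else y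

/-- **The label of the last place** `c (k + 1)` is a closed label with a bounded gradient, of the
complexity `(K₀, e₀, ρ₀)`. -/
def LnO {m J : ℕ} (F : Fam m J) (c : ℕ → Fin m) (k : ℕ) (sn : ℕ → ℝ → ℝ) (w φ : ℝ) (K₀ : ℕ)
    (e₀ ρ₀ : ℝ) (HN : LnT F → ℕ → MvPolynomial (Option (Fin m)) ℝ) (A : F.Ω → Prop) : Prop :=
  ∃ (V : Type) (z : PtT F → V) (z' : LnT F → V) (g : V → MvPolynomial (Option (Fin m)) ℝ),
    LbOK F ((range (k + 1)).image c) (c (k + 1)) K₀ ⌊e₀ * J⌋₊ J ⌊w * J⌋₊ ⌊ρ₀ * J⌋₊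
      ⌊(sn (k + 1) w - φ) * J⌋₊ A z z' g ∧ ∀ s, g (z' s) = HN s (k + 1)

/-- **The conclusion**: the gradient of the place `k` is closed. `γ`: the precisions of the charts;
`s₁`: the precision, in units. -/
def OutA {m J : ℕ} (F : Fam m J) (c : ℕ → Fin m) (k D' : ℕ) (w u φ ι s₁ : ℝ) (A : F.Ω → Prop)
    (G : ℕ → PtT F → ℕ → MvPolynomial (Option (Fin m)) ℝ)
    (GN : PtT F → ℕ → MvPolynomial (Option (Fin m)) ℝ) (kb kn : ℕ) (γ : ℕ → ℕ) : Prop :=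
  (∀ ω, A ω → ∀ i < k, |ggT F c k G GN kb kn γ k ω i| ≤ 2 ^ (ι * u * J)) ∧
  (∀ ω ν, A ω → A ν → ptr F J ω = ptr F J ν → ∀ i < k,
    |ggT F c k G GN kb kn γ k ω i - ggT F c k G GN kb kn γ k ν i| ≤ 2 ^ (-(s₁ * u * J))) ∧
  ∃ (W : ℕ) (mu : LnT F → ℕ → Polynomial ℝ), ⌊w * J⌋₊ ≤ W ∧ (W : ℝ) ≤ (w + 2 * φ) * J ∧
    (∀ s i, (mu s i).natDegree ≤ D' + 1) ∧
    Pb (Pool.Agent.H49.Ent.cond F.p A True) (fun ω => ∃ i < k, (2 : ℝ) ^ (-(s₁ * u * J)) <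
      |ggT F c k G GN kb kn γ k ω i - (mu (slam F W ω) i).eval (rt F W ω)|) ≤ 1 / 2

/-- **(TA)** The class theorem for a steep place over the flatter last place. The last place has
`lam0 * u` near digits; `ξ`: further digits of the steep place; the window `ks` of the charts is at
`w + lam0 / (2 be) u`. -/
def TaStmt : Prop := ∀ (D D' k : ℕ) (al be h lam0 : ℝ), 1 ≤ D → D ≤ D' → 1 ≤ k → 1 ≤ be →
  be < al → 0 < h → h ≤ 1 → 0 < lam0 → lam0 ≤ be / al →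
  ∃ ξ s₁ δ₀ T₀ : ℝ, 0 < ξ ∧ ξ ≤ 1 ∧ be / al * (1 + ξ) ≤ 1 ∧ 0 < s₁ ∧ 0 < δ₀ ∧
  ∀ T : ℝ, T₀ ≤ T → ∃ Λ : ℝ, 1 ≤ Λ ∧
  ∀ ι : ℝ, 0 < ι → ∃ φ₀ : ℝ, 0 < φ₀ ∧
  ∀ {m : ℕ} {S : PCl m} {c : ℕ → Fin m} {sn sp : ℕ → ℝ → ℝ} {G : Set ℝ} {b o w u φ e : ℝ}
    {lam : ℝ → ℝ}, XBox S c k sn sp G al be h b o w u Λ φ e lam → φ ≤ φ₀ * u → 0 ≤ e → e ≤ φ₀ →
  ∀ {K₀ : ℕ} {e₀ ρ₀ π₁ : ℝ}, FulB S c k be w u Λ e lam K₀ e₀ ρ₀ π₁ → π₁ ≤ sn (k + 1) w - φ →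
    ∀ {Dr N M : ℕ} {C₀ a Eb ηm : ℝ} {ow η σ : ℕ → ℝ} {lv bb : ℕ → ℕ → ℝ} {fb fn : ℕ → ℕ}
      {nb n ks : ℕ}, WnT k 1 sn G (2 * be / lam0) b w u Λ φ N C₀ Eb ηm ow lv fb fn nb n ks →
    ∀ E : ℝ, Bas S (fun J F A => ∀ {κ : ℝ} {z : ℕ → ℕ → ℕ} {g₀ : ℕ → ℕ → ℕ}
      {Gc : ℕ → PtT F → ℕ → MvPolynomial (Option (Fin m)) ℝ}
      {H : ℕ → LnT F → ℕ → MvPolynomial (Option (Fin m)) ℝ}
      {GN : PtT F → ℕ → MvPolynomial (Option (Fin m)) ℝ}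
      {HN : LnT F → ℕ → MvPolynomial (Option (Fin m)) ℝ},
      WinB F c (k + 1) D Dr N M C₀ a Eb ηm ow η σ lv bb κ z A g₀ Gc H →
      RadT nb n M J u ow fb fn z →
      (∀ l < k, CfB F ⌊b * J⌋₊ E (c l) A (fun s => s) (fun s => H (fb 0) s l)) →
      LbT F c k 1 D' w u φ E sn A (g₀ (fn 0)) (Gc (fn 0)) GN HN →
      LnO F c k sn w φ K₀ e₀ ρ₀ HN A →
      DjA F c k D' sn b w u T δ₀ (two k (1 + ξ) (be / al * (1 + ξ))) (fb 0) H HN A →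
      JtA F c k D' sn b w u φ δ₀ (ow (fn n)) (two k 1 lam0) (fb 0) H HN A →
      OutA F c k D' w u φ ι s₁ A Gc GN (fb 0) (fn n) (g₀ (fn 0)))

end Pool.VA83
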