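import Pool.Agent.H83.VA.Ta
import Pool.Agent.H71.XR.Xf
import Pool.Agent.H71.XR.Xk

/-!
# The class theorem for a steep place and a flatter last place
-/

set_option autoImplicit false

namespace Pool.VA83

/-- **The class theorem.** -/
theorem ta : TaStmt := ta_of Pool.XR71.xrow Pool.XR71.xnlD

end Pool.VA83
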